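import Mathlib

/-!
The family of words used for the lower bound `2 r - 1`.
-/

namespace Pool.Agent.MP_4e8562_co.H78

open Finset

theorem free_pair {α : Type} (f : α → α) {a b c d : α} (hab : a ≠ b) (hac : a ≠ c) (had : a ≠ d)
    (hbc : b ≠ c) (hbd : b ≠ d) (hcd : c ≠ d) :
    (f a ≠ b ∧ f b ≠ a) ∨ (f a ≠ c ∧ f c ≠ a) ∨ (f a ≠ d ∧ f d ≠ a) ∨ (f b ≠ c ∧ f c ≠ b) ∨
      (f b ≠ d ∧ f d ≠ b) ∨ (f c ≠ d ∧ f d ≠ c) := by
  grind

/-- `a, b, c, d` are distinct members of `V`, the first pair free for `f`, the second for `g` -/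
def Two {α : Type} (V : Finset α) (f g : α → α) : Prop :=
  ∃ a ∈ V, ∃ b ∈ V, ∃ c ∈ V, ∃ d ∈ V, a ≠ b ∧ a ≠ c ∧ a ≠ d ∧ b ≠ c ∧ b ≠ d ∧ c ≠ d ∧
    f a ≠ b ∧ f b ≠ a ∧ g c ≠ d ∧ g d ≠ c

theorem two_aux {α : Type} {V : Finset α} {f g : α → α} {a b c d e : α} (ha : a ∈ V) (hb : b ∈ V)
    (hc : c ∈ V) (hd : d ∈ V) (he : e ∈ V) (hab : a ≠ b) (hac : a ≠ c) (had : a ≠ d)
    (hae : a ≠ e) (hbc : b ≠ c) (hbd : b ≠ d) (hbe : b ≠ e) (hcd : c ≠ d) (hce : c ≠ e)
    (hde : d ≠ e) (h1 : f a ≠ b ∧ f b ≠ a)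
    (h2 : (g c ≠ d ∧ g d ≠ c) ∨ (g c ≠ e ∧ g e ≠ c) ∨ (g d ≠ e ∧ g e ≠ d)) : Two V f g := by
  rcases h2 with h | h | h
  · exact ⟨a, ha, b, hb, c, hc, d, hd, hab, hac, had, hbc, hbd, hcd, h1.1, h1.2, h.1, h.2⟩
  · exact ⟨a, ha, b, hb, c, hc, e, he, hab, hac, hae, hbc, hbe, hce, h1.1, h1.2, h.1, h.2⟩
  · exact ⟨a, ha, b, hb, d, hd, e, he, hab, had, hae, hbd, hbe, hde, h1.1, h1.2, h.1, h.2⟩

theorem two_aux' {α : Type} {V : Finset α} {f g : α → α} {a b c d e : α} (ha : a ∈ V) (hb : b ∈ V)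
    (hc : c ∈ V) (hd : d ∈ V) (he : e ∈ V) (hab : a ≠ b) (hac : a ≠ c) (had : a ≠ d)
    (hae : a ≠ e) (hbc : b ≠ c) (hbd : b ≠ d) (hbe : b ≠ e) (hcd : c ≠ d) (hce : c ≠ e)
    (hde : d ≠ e) (h1 : f a ≠ b ∧ f b ≠ a) : Two V f g := by
  by_cases h2 : (g c ≠ d ∧ g d ≠ c) ∨ (g c ≠ e ∧ g e ≠ c) ∨ (g d ≠ e ∧ g e ≠ d)
  · exact two_aux ha hb hc hd he hab hac had hae hbc hbd hbe hcd hce hde h1 h2
  rcases free_pair f hac had hae hcd hce hde with h | h | h | h | h | h
  · exact two_aux ha hc hb hd he hac hab had hae hbc.symm hcd hce hbd hbe hde h (by grind)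
  · exact two_aux ha hd hb hc he had hab hac hae hbd.symm hcd.symm hde hbc hbe hce h (by grind)
  · exact two_aux ha he hb hc hd hae hab hac had hbe.symm hce.symm hde.symm hbc hbd hcd h
      (by grind)
  · exact two_aux hc hd ha hb he hcd hac.symm hbc.symm hce had.symm hbd.symm hde hab hae hbe h
      (by grind)
  · exact two_aux hc he ha hb hd hce hac.symm hbc.symm hcd hae.symm hbe.symm hde.symm hab had hbd h
      (by grind)
  · exact two_aux hd he ha hb hc hde had.symm hbd.symm hcd.symm hae.symm hbe.symm hce.symm hab hac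
      hbc h (by grind)

theorem two_pairs {α : Type} [DecidableEq α] {V : Finset α} (hV : 5 ≤ #V) (f g : α → α) :
    Two V f g := by
  obtain ⟨a, ha⟩ := card_pos.mp (by omega : 0 < #V)
  have h1 := card_erase_of_mem ha
  obtain ⟨b, hb⟩ := card_pos.mp (by omega : 0 < #(V.erase a))
  have h2 := card_erase_of_mem hb
  obtain ⟨c, hc⟩ := card_pos.mp (by omega : 0 < #((V.erase a).erase b))
  have h3 := card_erase_of_mem hc
  obtain ⟨d, hd⟩ := card_pos.mp (by omega : 0 < #(((V.erase a).erase b).erase c))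
  have h4 := card_erase_of_mem hd
  obtain ⟨e, he⟩ := card_pos.mp (by omega : 0 < #((((V.erase a).erase b).erase c).erase d))
  simp only [mem_erase] at hb hc hd he
  obtain ⟨hba, hb⟩ := hb
  obtain ⟨hcb, hca, hc⟩ := hc
  obtain ⟨hdc, hdb, hda, hd⟩ := hd
  obtain ⟨hed, hec, heb, hea, he⟩ := he
  rcases free_pair f hba.symm hca.symm hda.symm hcb.symm hdb.symm hdc.symm with
    h | h | h | h | h | h
  · exact two_aux' ha hb hc hd he hba.symm hca.symm hda.symm hea.symm hcb.symm hdb.symm heb.symm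
      hdc.symm hec.symm hed.symm h
  · exact two_aux' ha hc hb hd he hca.symm hba.symm hda.symm hea.symm hcb hdc.symm hec.symm
      hdb.symm heb.symm hed.symm h
  · exact two_aux' ha hd hb hc he hda.symm hba.symm hca.symm hea.symm hdb hdc hed.symm
      hcb.symm heb.symm hec.symm h
  · exact two_aux' hb hc ha hd he hcb.symm hba hdb.symm heb.symm hca hdc.symm hec.symm
      hda.symm hea.symm hed.symm h
  · exact two_aux' hb hd ha hc he hdb.symm hba hcb.symm heb.symm hda hdc hed.symm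
      hca.symm hea.symm hec.symm h
  · exact two_aux' hc hd ha hb he hdc.symm hca hcb hec.symm hda hdb hed.symm
      hba.symm hea.symm heb.symm h

theorem exists_avoid {W α : Type} [Fintype W] [DecidableEq α] (R : Finset α)
    (hR : Fintype.card W ≤ #R) (w : W → α) {x x' : W} (hx : w x ≠ w x') :
    ∃ f : W → α, Function.Injective f ∧ ∀ u, f u ∈ R.erase (w u) := by
  classical
  refine (all_card_le_biUnion_card_iff_exists_injective fun u => R.erase (w u)).mp fun A => ?_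
  by_cases h : ∃ u ∈ A, ∃ v ∈ A, w u ≠ w v
  · obtain ⟨u, hu, v, hv, huv⟩ := h
    refine ((card_le_univ A).trans hR).trans (card_le_card fun z hz => mem_biUnion.mpr ?_)
    by_cases h1 : z = w u
    · exact ⟨v, hv, mem_erase.mpr ⟨h1 ▸ huv, hz⟩⟩
    · exact ⟨u, hu, mem_erase.mpr ⟨h1, hz⟩⟩
  · push Not at h
    rcases A.eq_empty_or_nonempty with rfl | ⟨u, hu⟩
    · simp
    · have h1 : A ≠ univ := fun h2 => hx (h x (h2 ▸ mem_univ _) x' (h2 ▸ mem_univ _))
      have h2 := card_lt_card (ssubset_univ_iff.mpr h1)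
      rw [card_univ] at h2
      have h3 := pred_card_le_card_erase (s := R) (a := w u)
      have h4 := card_le_card (subset_biUnion_of_mem (fun u => R.erase (w u)) hu)
      omega

/-- one vertex with many twins, `h` single vertices, and three points for each colour -/
abbrev Pt (r h : ℕ) := Option (Fin h ⊕ Fin r × Fin 3)

/-- a colour may repeat only inside a gadget of its own side and off its own point -/
def Valid {r h : ℕ} (side : Fin r → Bool) (y : Pt r h → Fin r) : Prop :=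
  ∀ u v, u ≠ v → y u = y v → ∃ c c' t, u = some (.inr (c, t)) ∧ v = some (.inr (c', t)) ∧
    side c = side (y u) ∧ side c' = side (y u) ∧ y u ≠ c ∧ y u ≠ c'

theorem build_word {r h : ℕ} (side : Fin r → Bool) (φ : Fin r × Fin 3 → Fin r)
    (θ : Option (Fin h ⊕ (Bool × Fin 3) × Bool) → Fin r) (hθ : Function.Injective θ)
    (α β : Bool × Fin 3 → Fin r) (hα : ∀ g, α g = θ (some (.inr (g, false))))
    (hβ : ∀ g, β g = θ (some (.inr (g, true)))) (h0 : ∀ g, side (α g) = g.1)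
    (h1 : ∀ g, φ (α g, g.2) ≠ β g) (h2 : ∀ g, side (β g) = g.1 → φ (β g, g.2) ≠ α g)
    (h3 : ∀ g, side (β g) ≠ g.1 → ∀ c, side c = g.1 → φ (c, g.2) ≠ α g) :
    ∃ y : Pt r h → Fin r, Valid side y ∧ y none = θ none ∧
      (∀ x, y (some (.inl x)) = θ (some (.inl x))) ∧ ∀ g, y (some (.inr g)) ≠ φ g := by
  have hne : ∀ g, α g ≠ β g := by
    intro g hg
    rw [hα, hβ] at hg
    simpa using hθ hg
  let bit : Fin r × Fin 3 → Bool := fun g => decide (g.1 = α (side g.1, g.2) ∨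
    (g.1 ≠ β (side g.1, g.2) ∧ φ g = α (side g.1, g.2)))
  let slot : Pt r h → Option (Fin h ⊕ (Bool × Fin 3) × Bool) :=
    Option.map (Sum.map id fun g => ((side g.1, g.2), bit g))
  have hval : ∀ c t, θ (slot (some (.inr (c, t)))) =
      if c = α (side c, t) ∨ (c ≠ β (side c, t) ∧ φ (c, t) = α (side c, t)) then β (side c, t)
      else α (side c, t) := by
    intro c t
    split_ifs with hc
    · rw [hβ]
      simp only [slot, bit, Option.map_some, Sum.map_inr, hc, decide_true]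
    · rw [hα]
      simp only [slot, bit, Option.map_some, Sum.map_inr, hc, decide_false]
  refine ⟨θ ∘ slot, ?_, rfl, fun _ => rfl, ?_⟩
  · intro u v huv hy
    have hs := hθ hy
    rcases u with _ | x | ⟨c, t⟩ <;> rcases v with _ | x' | ⟨c', t'⟩ <;>
      simp only [slot, Option.map_some, Option.map_none, Sum.map_inl, Sum.map_inr, id,
        Option.some.injEq, Sum.inl.injEq, Sum.inr.injEq, Prod.mk.injEq, reduceCtorEq] at hs
    · exact absurd rfl huv
    · exact absurd (by rw [hs]) huv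
    · obtain ⟨⟨e1, rfl⟩, -⟩ := hs
      have hcc : c ≠ c' := fun e => huv (by rw [e])
      refine ⟨c, c', t, rfl, rfl, ?_⟩
      have e2 := hval c t
      have e3 := hval c' t
      have e4 := h0 (side c, t)
      have e5 := hne (side c, t)
      have e6 := h3 (side c, t)
      rw [← e1] at e3
      simp only [Function.comp] at hy ⊢
      rw [hy] at e2 ⊢
      generalize θ (slot (some (.inr (c', t)))) = z at e2 e3
      grind
  · rintro ⟨c, t⟩
    have e2 := hval c t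
    have e5 := hne (side c, t)
    have e6 := h1 (side c, t)
    have e7 := h2 (side c, t)
    simp only [Function.comp]
    grind

theorem exists_word {r h : ℕ} (hr : r = h + 13) (side : Fin r → Bool)
    (hs : ∀ s, 7 ≤ #{c | side c = s}) (φ : Fin r × Fin 3 → Fin r) (ω : Fin h → Fin r) (i : Fin r)
    (ts : Bool → Fin 3) (cs : Bool → Fin r) (h1 : ∀ s, side (cs s) = s) (h2 : ∀ s, cs s ≠ i)
    (h3 : ∀ s, side (φ (cs s, ts s)) = s) (h4 : ∀ s c, side c = s → φ (c, ts s) ≠ cs s) :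
    ∃ y : Pt r h → Fin r, Valid side y ∧ y none = i ∧
      (∀ x, y (some (.inl x)) ≠ ω x) ∧ ∀ g, y (some (.inr g)) ≠ φ g := by
  have hκ : ∀ s, ∃ κ : Fin 5 → Fin r, Function.Injective κ ∧ (∀ j, side (κ j) = s ∧ κ j ≠ i) ∧
      κ 0 = cs s ∧ φ (κ 1, ts s + 1) ≠ κ 2 ∧ φ (κ 2, ts s + 1) ≠ κ 1 ∧
      φ (κ 3, ts s + 2) ≠ κ 4 ∧ φ (κ 4, ts s + 2) ≠ κ 3 := by
    intro s
    have hV : 5 ≤ #((({c | side c = s} : Finset (Fin r)).erase i).erase (cs s)) := by
      have a1 := hs s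
      have a2 := pred_card_le_card_erase (s := ({c | side c = s} : Finset (Fin r))) (a := i)
      have a3 := pred_card_le_card_erase
        (s := ({c | side c = s} : Finset (Fin r)).erase i) (a := cs s)
      omega
    obtain ⟨a, ha, b, hb, c, hc, d, hd, e1, e2, e3, e4, e5, e6, e7, e8, e9, e10⟩ :=
      two_pairs hV (fun c => φ (c, ts s + 1)) fun c => φ (c, ts s + 2)
    simp only [mem_erase, mem_filter, mem_univ, true_and] at ha hb hc hd
    refine ⟨![cs s, a, b, c, d], ?_, ?_, rfl, e7, e8, e9, e10⟩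
    · intro j k hjk
      fin_cases j <;> fin_cases k <;> simp at hjk ⊢ <;> grind
    · intro j
      fin_cases j
      exacts [⟨h1 s, h2 s⟩, ⟨ha.2.2, ha.2.1⟩, ⟨hb.2.2, hb.2.1⟩, ⟨hc.2.2, hc.2.1⟩,
        ⟨hd.2.2, hd.2.1⟩]
  choose κ k1 k2 k3 k4 k5 k6 k7 using hκ
  let U : Finset (Fin r) := insert i (univ.image fun z : Bool × Fin 5 => κ z.1 z.2)
  have hU : #U ≤ 11 := (card_insert_le _ _).trans (Nat.succ_le_succ (card_image_le.trans (by simp)))
  obtain ⟨f, hf, hf'⟩ := exists_avoid (W := Fin h ⊕ Bool) Uᶜ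
    (by rw [card_compl]; simp only [Fintype.card_sum, Fintype.card_fin, Fintype.card_bool]; omega)
    (Sum.elim ω fun s => φ (cs s, ts s)) (x := .inr false) (x' := .inr true) (by
      intro e
      have e1 := h3 false
      have e2 := h3 true
      simp only [Sum.elim_inr] at e
      rw [e, e2] at e1
      exact absurd e1 (by decide))
  simp only [mem_erase, mem_compl, U, mem_insert, mem_image, mem_univ, true_and, not_or,
    not_exists] at hf'
  let Θ : Option ((Bool × Fin 5) ⊕ (Fin h ⊕ Bool)) → Fin r := fun z =>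
    z.elim i (Sum.elim (fun z => κ z.1 z.2) f)
  have hΘ : Function.Injective Θ := by
    rintro (_ | ⟨s, j⟩ | u) (_ | ⟨s', j'⟩ | u') e <;>
      simp only [Θ, Option.elim, Sum.elim_inl, Sum.elim_inr] at e
    · rfl
    · exact absurd e.symm (k2 _ _).2
    · exact absurd e.symm (hf' _).2.1
    · exact absurd e (k2 _ _).2
    · have e1 : s = s' := by rw [← (k2 s j).1, e, (k2 s' j').1]
      subst e1
      rw [k1 s e]
    · exact absurd e ((hf' _).2.2 (s, j))
    · exact absurd e (hf' _).2.1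
    · exact absurd e.symm ((hf' _).2.2 (s', j'))
    · rw [hf e]
  let ι0 : (Bool → Fin 3) → (Bool × Fin 3) × Bool → (Bool × Fin 5) ⊕ Bool := fun ts z =>
    if z.1.2 = ts z.1.1 then (if z.2 then .inr z.1.1 else .inl (z.1.1, 0))
    else if z.1.2 = ts z.1.1 + 1 then .inl (z.1.1, if z.2 then 2 else 1)
    else .inl (z.1.1, if z.2 then 4 else 3)
  have hι0 : ∀ ts, Function.Injective (ι0 ts) := by decide +kernel
  let ι : Option (Fin h ⊕ (Bool × Fin 3) × Bool) → Option ((Bool × Fin 5) ⊕ (Fin h ⊕ Bool)) :=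
    Option.map (Sum.elim (fun x => .inr (.inl x)) fun z => Sum.map id .inr (ι0 ts z))
  have hι : Function.Injective ι := by
    refine Option.map_injective ?_
    rintro (x | z) (x' | z') e <;> simp only [Sum.elim_inl, Sum.elim_inr] at e
    · simpa using e
    · rcases hz : ι0 ts z' with _ | _ <;> simp [hz] at e
    · rcases hz : ι0 ts z with _ | _ <;> simp [hz] at e
    · rw [hι0 ts ((Sum.map_injective.mpr ⟨Function.injective_id, Sum.inr_injective⟩) e)]
  have tri : ∀ t u : Fin 3, t = u ∨ (t ≠ u ∧ t = u + 1) ∨ (t ≠ u ∧ t ≠ u + 1 ∧ t = u + 2) := by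
    decide
  have key : ∀ g : Bool × Fin 3, ∀ a b, a = (Θ ∘ ι) (some (.inr (g, false))) →
      b = (Θ ∘ ι) (some (.inr (g, true))) → side a = g.1 ∧ φ (a, g.2) ≠ b ∧
      (side b = g.1 → φ (b, g.2) ≠ a) ∧
      (side b ≠ g.1 → ∀ c, side c = g.1 → φ (c, g.2) ≠ a) := by
    rintro ⟨s, t⟩ a b ha hb
    rcases tri t (ts s) with e | ⟨e1, e⟩ | ⟨e1, e2, e⟩
    · have ea : a = cs s := by simp [ha, Θ, ι, ι0, e, k3]
      have eb : b = f (.inr s) := by simp [hb, Θ, ι, ι0, e]
      subst e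
      rw [ea, eb]
      exact ⟨h1 s, (hf' (.inr s)).1.symm, fun e => h4 s _ e, fun _ => h4 s⟩
    · have ea : a = κ s 1 := by simp [ha, Θ, ι, ι0, e1, ← e]
      have eb : b = κ s 2 := by simp [hb, Θ, ι, ι0, e1, ← e]
      subst e
      rw [ea, eb]
      exact ⟨(k2 s 1).1, k4 s, fun _ => k5 s, fun e => absurd (k2 s 2).1 e⟩
    · have ea : a = κ s 3 := by simp [ha, Θ, ι, ι0, e1, e2]
      have eb : b = κ s 4 := by simp [hb, Θ, ι, ι0, e1, e2]
      subst e
      rw [ea, eb]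
      exact ⟨(k2 s 3).1, k6 s, fun _ => k7 s, fun e => absurd (k2 s 4).1 e⟩
  obtain ⟨y, y1, y2, y3, y4⟩ := build_word side φ (Θ ∘ ι) (hΘ.comp hι) _ _ (fun _ => rfl)
    (fun _ => rfl) (fun g => (key g _ _ rfl rfl).1) (fun g => (key g _ _ rfl rfl).2.1)
    (fun g => (key g _ _ rfl rfl).2.2.1) fun g => (key g _ _ rfl rfl).2.2.2
  refine ⟨y, y1, y2, fun x => ?_, y4⟩
  rw [y3]
  exact (hf' (.inl x)).1

end Pool.Agent.MP_4e8562_co.H78
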