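import Mathlib
import Pool.Agent.MP_4e8562_co.H97.Trees

/-!
Tools for the balanced range: partitions from reachability, nested neighbourhoods, hitting words.
-/

namespace Pool.Agent.MP_4e8562_co.H78

open Finset Pool.Agent.MP_4e8562_co.H97

theorem tree_of_reach {V : Type} {r : ℕ} (G : SimpleGraph V) (χ : G.edgeSet → Fin r)
    (X : Set V) (i : Fin r) (z : V) (hz : z ∈ X)
    (h : ∀ v ∈ X, Relation.ReflTransGen
      (fun a b => a ∈ X ∧ ∃ he : G.Adj a b, χ ⟨s(a, b), he⟩ = i) v z) :
    ∃ T : G.Subgraph, MonoTree G χ T ∧ T.verts = X := by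
  classical
  let R : V → V → Prop := fun a b => a ∈ X ∧ ∃ he : G.Adj a b, χ ⟨s(a, b), he⟩ = i
  let P : ℕ → V → Prop := fun k => Nat.rec (fun v => v = z)
    (fun _ Q v => ∃ w, w ∈ X ∧ R v w ∧ Q w) k
  have hP : ∀ v, Relation.ReflTransGen R v z → v ∈ X ∧ ∃ k, P k v := by
    intro v hv
    induction hv using Relation.ReflTransGen.head_induction_on with
    | refl => exact ⟨hz, 0, rfl⟩
    | head h1 _ ih =>
      obtain ⟨h2, k, hk⟩ := ih
      exact ⟨h1.1, k + 1, _, h2, h1, hk⟩
  let d : V → ℕ := fun v => sInf {k | P k v}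
  have key : ∀ v, ∃ w, v ∈ X → v ≠ z → w ∈ X ∧ d w < d v ∧
      ∃ he : G.Adj v w, χ ⟨s(v, w), he⟩ = i := by
    intro v
    by_cases hv : v ∈ X
    · by_cases hvz : v = z
      · exact ⟨v, fun _ h => absurd hvz h⟩
      · have h2 : P (d v) v := Nat.sInf_mem (s := {k | P k v}) (hP v (h v hv)).2
        obtain ⟨k, hk⟩ : ∃ k, d v = k + 1 := by
          rcases hk : d v with _ | k
          · rw [hk] at h2
            exact absurd h2 hvz
          · exact ⟨k, rfl⟩
        rw [hk] at h2
        obtain ⟨w, hw, hR, hQ⟩ := h2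
        refine ⟨w, fun _ _ => ⟨hw, ?_, hR.2⟩⟩
        have h4 : d w ≤ k := Nat.sInf_le (s := {k | P k w}) hQ
        omega
    · exact ⟨v, fun h => absurd h hv⟩
  choose par hpar using key
  exact exists_tree G χ X i z hz par d fun v hv hvz => hpar v hv hvz

theorem part_of_reach {V L : Type} {r : ℕ} (G : SimpleGraph V) (χ : G.edgeSet → Fin r)
    (lab : V → L) (col : L → Fin r) (rt : L → V) (S : Finset L) (hS : ∀ v, lab v ∈ S)
    (h : ∀ v, Relation.ReflTransGen
      (fun a b => lab a = lab b ∧ ∃ he : G.Adj a b, χ ⟨s(a, b), he⟩ = col (lab a)) v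
      (rt (lab v))) :
    Part G χ #S := by
  classical
  have hlab : ∀ a b, Relation.ReflTransGen
      (fun a b => lab a = lab b ∧ ∃ he : G.Adj a b, χ ⟨s(a, b), he⟩ = col (lab a)) a b →
      lab a = lab b := by
    intro a b hab
    induction hab with
    | refl => rfl
    | tail _ h2 ih => exact ih.trans h2.1
  have key : ∀ l, (∃ v, lab v = l) →
      ∃ T : G.Subgraph, MonoTree G χ T ∧ T.verts = {v | lab v = l} := by
    rintro l ⟨u, rfl⟩
    refine tree_of_reach G χ {v | lab v = lab u} (col (lab u)) (rt (lab u))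
      (hlab _ _ (h u)).symm ?_
    intro v hv
    have hv' : lab v = lab u := hv
    have h1 := h v
    rw [hv'] at h1
    have : ∀ w, Relation.ReflTransGen
        (fun a b => lab a = lab b ∧ ∃ he : G.Adj a b, χ ⟨s(a, b), he⟩ = col (lab a)) w
        (rt (lab u)) → Relation.ReflTransGen (fun a b => a ∈ {v | lab v = lab u} ∧
          ∃ he : G.Adj a b, χ ⟨s(a, b), he⟩ = col (lab u)) w (rt (lab u)) := by
      intro w hw
      induction hw using Relation.ReflTransGen.head_induction_on with
      | refl => exact .refl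
      | @head a b h2 h3 ih =>
        have h4 : lab a = lab u :=
          (h2.1.trans (hlab _ _ h3)).trans (hlab _ _ (h u)).symm
        refine .head ⟨h4, ?_⟩ ih
        rw [← h4]
        exact h2.2
    exact this v h1
  choose! tr htr using key
  refine ⟨(S.filter fun l => ∃ v, lab v = l).image tr,
    card_image_le.trans (card_filter_le _ _), ?_, ?_⟩
  · intro T hT
    obtain ⟨l, hl, rfl⟩ := mem_image.mp hT
    exact (htr l (mem_filter.mp hl).2).1
  · intro v
    refine ⟨tr (lab v), ⟨mem_image_of_mem _ (mem_filter.mpr ⟨hS v, v, rfl⟩), ?_⟩, ?_⟩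
    · rw [(htr _ ⟨v, rfl⟩).2]
      rfl
    · rintro T ⟨hT, hv⟩
      obtain ⟨l, hl, rfl⟩ := mem_image.mp hT
      rw [(htr l (mem_filter.mp hl).2).2] at hv
      have hv' : lab v = l := hv
      rw [hv']

theorem exists_hub {α β : Type} [Fintype β] [Nonempty α] {r : ℕ} (hr : 0 < r)
    (c : α → β → Fin r) :
    ∃ (J : Finset (Fin r)) (x : Fin r → α) (N : Finset β), (∀ j ∈ J, ∀ y ∈ N, c (x j) y = j) ∧
      ∀ a, Fintype.card β ≤ r ^ r * #{y ∈ N | c a y ∈ J} := by
  classical
  let Q : Finset (Fin r) → Prop := fun J => ∃ (x : Fin r → α) (N : Finset β),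
    (∀ j ∈ J, ∀ y ∈ N, c (x j) y = j) ∧ Fintype.card β ≤ r ^ #J * #N
  obtain ⟨J, hJ, hmax⟩ := exists_max_image (univ.filter Q) card
    ⟨∅, mem_filter.mpr ⟨mem_univ _, fun _ => Classical.arbitrary α, univ, by simp, by simp⟩⟩
  obtain ⟨x, N, h1, h2⟩ := (mem_filter.mp hJ).2
  refine ⟨J, x, N, h1, fun a => ?_⟩
  have hk : #J ≤ r := (card_le_univ J).trans (by simp)
  have h3 : ∀ v ∈ Jᶜ, r ^ (#J + 1) * #{y ∈ N | c a y = v} + 1 ≤ Fintype.card β := by
    intro v hv
    have hv' : v ∉ J := mem_compl.mp hv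
    by_contra hlt
    have hQ : Q (insert v J) := by
      refine ⟨Function.update x v a, {y ∈ N | c a y = v}, ?_, ?_⟩
      · intro j hj y hy
        obtain ⟨hy1, hy2⟩ := mem_filter.mp hy
        by_cases hjv : j = v
        · rw [hjv, Function.update_self, hy2]
        · rw [Function.update_of_ne hjv]
          exact h1 j ((mem_insert.mp hj).resolve_left hjv) y hy1
      · rw [card_insert_of_notMem hv']
        omega
    have := hmax _ (mem_filter.mpr ⟨mem_univ _, hQ⟩)
    rw [card_insert_of_notMem hv'] at this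
    omega
  have h4 := sum_le_sum h3
  rw [sum_add_distrib, ← mul_sum, sum_const, sum_const, card_compl, Fintype.card_fin,
    smul_eq_mul, smul_eq_mul] at h4
  have h5 : #{y ∈ N | c a y ∈ J} + ∑ v ∈ Jᶜ, #{y ∈ N | c a y = v} = #N := by
    rw [sum_card_fiberwise_eq_card_filter]
    simp only [mem_compl]
    exact card_filter_add_card_filter_not _
  set k := #J with hkdef
  set d := #{y ∈ N | c a y ∈ J} with hd
  set e := ∑ v ∈ Jᶜ, #{y ∈ N | c a y = v} with he
  set B := Fintype.card β
  obtain ⟨u, hu⟩ : ∃ u, r = k + u := ⟨r - k, by omega⟩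
  have hu' : r - k = u := by omega
  rw [hu'] at h4
  have h6 : r * B ≤ r ^ (k + 1) * d + r ^ (k + 1) * e := by
    rw [← mul_add, h5, pow_succ, mul_comm (r ^ k), mul_assoc]
    exact Nat.mul_le_mul_left _ h2
  have h7 : k * B + u ≤ r ^ (k + 1) * d := by
    have : r * B = k * B + u * B := by rw [hu, add_mul]
    omega
  rcases Nat.eq_zero_or_pos u with h0 | h0
  · have he0 : e = 0 := by
      have : Jᶜ = ∅ := by
        rw [← card_eq_zero, card_compl, Fintype.card_fin, ← hkdef, hu', h0]
      rw [he, this, sum_empty]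
    have hkr : k = r := by omega
    rw [← h5, he0, add_zero, hkr] at h2
    exact h2
  · rcases Nat.eq_zero_or_pos k with hk0 | hk0
    · have : d = 0 := by
        rw [hd, card_eq_zero.mp (hkdef.symm.trans hk0)]
        simp
      rw [this] at h7
      omega
    · have h8 : B ≤ k * B := Nat.le_mul_of_pos_left _ hk0
      have h9 : r ^ (k + 1) * d ≤ r ^ r * d :=
        Nat.mul_le_mul_right _ (Nat.pow_le_pow_right hr (by omega))
      omega

theorem exists_hit {α β : Type} [Fintype α] [Fintype β] {r d : ℕ} (hr : 0 < r)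
    (c : α → β → Fin r) (D : α → Finset β) (hD : ∀ a, d ≤ #(D a))
    (h : Fintype.card α * (r - 1) ^ d < r ^ d) :
    ∃ ψ : β → Fin r, ∀ a, ∃ y ∈ D a, ψ y = c a y := by
  classical
  choose E hE1 hE2 using fun a => exists_subset_card_eq (hD a)
  by_contra hno
  push Not at hno
  let Bad : α → Finset (β → Fin r) := fun a =>
    Fintype.piFinset fun y => if y ∈ E a then univ.erase (c a y) else univ
  have hsub : (univ : Finset (β → Fin r)) ⊆ univ.biUnion Bad := by
    intro ψ _
    obtain ⟨a, ha⟩ := hno ψ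
    refine mem_biUnion.mpr ⟨a, mem_univ _, Fintype.mem_piFinset.mpr fun y => ?_⟩
    split_ifs with hy
    · exact mem_erase.mpr ⟨ha y (hE1 a hy), mem_univ _⟩
    · exact mem_univ _
  have hcard : ∀ a, #(Bad a) = (r - 1) ^ d * r ^ (Fintype.card β - d) := by
    intro a
    rw [Fintype.card_piFinset]
    have : ∀ y, #(if y ∈ E a then univ.erase (c a y) else (univ : Finset (Fin r))) =
        if y ∈ E a then r - 1 else r := by
      intro y
      split_ifs <;> simp
    simp only [this]
    rw [prod_ite, prod_const, prod_const]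
    congr 2
    · simp [hE2]
    · have : (univ.filter fun y => ¬y ∈ E a) = (E a)ᶜ := by
        ext y
        simp
      rw [this, card_compl, hE2]
  obtain ⟨a0, -⟩ := hno fun _ => ⟨0, hr⟩
  have hdB : d ≤ Fintype.card β := (hD a0).trans (card_le_univ _)
  have h1 := (card_le_card hsub).trans card_biUnion_le
  simp only [hcard, sum_const, card_univ, smul_eq_mul, Fintype.card_fun, Fintype.card_fin] at h1
  have h2 : r ^ Fintype.card β = r ^ d * r ^ (Fintype.card β - d) := by
    rw [← pow_add, Nat.add_sub_cancel' hdB]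
  rw [h2, ← mul_assoc] at h1
  have h3 := Nat.le_of_mul_le_mul_right h1 (pow_pos hr _)
  omega

end Pool.Agent.MP_4e8562_co.H78
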