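import Mathlib
import Pool.Agent.MP_4e8562_co.H78.Tools

/-!
The upper bound `2 r - 1` in the balanced range.
-/

namespace Pool.Agent.MP_4e8562_co.H78

open Finset Pool.Agent.MP_4e8562_co.H97

theorem edge1 {n m r : ℕ} (χ : (K n m).edgeSet → Fin r) (a : Fin n) (b : Fin m) {i : Fin r}
    (h : vec χ b a = i) : ∃ he : (K n m).Adj (Sum.inl a) (Sum.inr b),
      χ ⟨s(Sum.inl a, Sum.inr b), he⟩ = i :=
  ⟨K_adj a b, h⟩

theorem edge2 {n m r : ℕ} (χ : (K n m).edgeSet → Fin r) (a : Fin n) (b : Fin m) {i : Fin r}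
    (h : vec χ b a = i) : ∃ he : (K n m).Adj (Sum.inr b) (Sum.inl a),
      χ ⟨s(Sum.inr b, Sum.inl a), he⟩ = i := by
  refine ⟨(K_adj a b).symm, ?_⟩
  rw [← h, vec]
  exact congrArg χ (Subtype.ext Sym2.eq_swap)

theorem card_rest {β : Type} [DecidableEq β] {r d : ℕ} {B : ℕ}
    (hB : r ^ r * (d + r) < B) (E : Finset β) (hE : B ≤ r ^ r * #E) (y : Fin r → β)
    (J : Finset (Fin r)) : d + 1 ≤ #(E \ J.image y) := by
  have h1 : d + r < #E := Nat.lt_of_mul_lt_mul_left (hB.trans_le hE)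
  have h2 : #(J.image y) ≤ r := card_image_le.trans ((card_le_univ J).trans (by simp))
  have h3 := le_card_sdiff (J.image y) E
  omega

theorem upper_part {n m r d : ℕ} (hr : 0 < r) (hn : r ^ r * (d + r) < n) (hnm : n ≤ m)
    (hm : m * (r - 1) ^ d < r ^ d) (χ : (K n m).edgeSet → Fin r) :
    Part (K n m) χ (2 * r - 1) := by
  classical
  have : Nonempty (Fin n) := ⟨⟨0, by omega⟩⟩
  have : Nonempty (Fin m) := ⟨⟨0, by omega⟩⟩
  obtain ⟨J, x, N, hN, hJ⟩ := exists_hub hr fun (a : Fin n) (b : Fin m) => vec χ b a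
  obtain ⟨I, y, M, hM, hI⟩ := exists_hub hr fun (b : Fin m) (a : Fin n) => vec χ b a
  rw [Fintype.card_fin] at hJ hI
  have hJ' := fun a => card_rest (hn.trans_le hnm) _ (hJ a) y I
  have hI' := fun b => card_rest hn _ (hI b) x J
  obtain ⟨y0, hy0⟩ := card_pos.mp (lt_of_lt_of_le (Nat.succ_pos d) (hJ' (Classical.arbitrary _)))
  obtain ⟨x0, hx0⟩ := card_pos.mp (lt_of_lt_of_le (Nat.succ_pos d) (hI' (Classical.arbitrary _)))
  simp only [mem_sdiff, mem_filter] at hy0 hx0
  obtain ⟨⟨hy0N, hj0⟩, hy0I⟩ := hy0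
  obtain ⟨⟨hx0M, hi0⟩, hx0J⟩ := hx0
  set j0 := vec χ y0 (Classical.arbitrary _)
  set i0 := vec χ (Classical.arbitrary _) x0
  obtain ⟨ψ, hψ⟩ := exists_hit (d := d) hr (fun (a : Fin n) (b : Fin m) => vec χ b a)
    (fun a => ({b ∈ N | vec χ b a ∈ J} \ I.image y).erase y0)
    (fun a => by
      have := hJ' a
      have := pred_card_le_card_erase (s := {b ∈ N | vec χ b a ∈ J} \ I.image y) (a := y0)
      omega)
    (by rw [Fintype.card_fin]; exact (Nat.mul_le_mul_right _ hnm).trans_lt hm)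
  obtain ⟨ω, hω⟩ := exists_hit (d := d) hr (fun (b : Fin m) (a : Fin n) => vec χ b a)
    (fun b => ({a ∈ M | vec χ b a ∈ I} \ J.image x).erase x0)
    (fun b => by
      have := hI' b
      have := pred_card_le_card_erase (s := {a ∈ M | vec χ b a ∈ I} \ J.image x) (a := x0)
      omega)
    (by rw [Fintype.card_fin]; exact hm)
  choose p hp hp' using hψ
  choose q hq hq' using hω
  simp only [mem_erase, mem_sdiff, mem_filter] at hp hq
  let v := vec χ y0 x0
  let g : Fin m → Fin r := fun b => if b = y0 ∧ v ∈ J then v else if ψ b ∈ J then ψ b else j0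
  let g' : Fin n → Fin r := fun a => if a = x0 ∧ v ∈ I then v else if ω a ∈ I then ω a else i0
  have hg : ∀ b, g b ∈ J := by
    intro b
    simp only [g]
    split_ifs with h1 h2
    exacts [h1.2, h2, hj0]
  have hg' : ∀ a, g' a ∈ I := by
    intro a
    simp only [g']
    split_ifs with h1 h2
    exacts [h1.2, h2, hi0]
  let B : Fin r → Fin r ⊕ Fin r := fun k => if k = v ∧ v ∈ J then Sum.inl v else Sum.inr k
  let col : Fin r ⊕ Fin r → Fin r := Sum.elim id id
  have hcol : ∀ k, col (B k) = k := by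
    intro k
    simp only [B]
    split_ifs with h1
    · exact h1.1.symm
    · rfl
  let lab : Fin n ⊕ Fin m → Fin r ⊕ Fin r := Sum.elim
    (fun a => if a ∈ J.image x then Sum.inl (vec χ y0 a) else
      if a ∈ M then B (g' a) else Sum.inl (vec χ (p a) a))
    (fun b => if b ∈ I.image y then B (vec χ b x0) else
      if b ∈ N then Sum.inl (g b) else B (vec χ b (q b)))
  let rt : Fin r ⊕ Fin r → Fin n ⊕ Fin m := Sum.map x y
  let S : Finset (Fin r ⊕ Fin r) :=
    J.image Sum.inl ∪ (I.filter fun k => ¬(k = v ∧ v ∈ J)).image Sum.inr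
  have hSJ : ∀ j ∈ J, Sum.inl j ∈ S := fun j hj => mem_union_left _ (mem_image_of_mem _ hj)
  have hSI : ∀ k ∈ I, B k ∈ S := by
    intro k hk
    simp only [B]
    split_ifs with h1
    · exact hSJ _ h1.2
    · exact mem_union_right _ (mem_image_of_mem _ (mem_filter.mpr ⟨hk, h1⟩))
  have l1 : ∀ j ∈ J, lab (Sum.inl (x j)) = Sum.inl j := by
    intro j hj
    simp only [lab, Sum.elim_inl, if_pos (mem_image_of_mem x hj)]
    rw [hN j hj y0 hy0N]
  have l2 : ∀ k ∈ I, lab (Sum.inr (y k)) = B k := by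
    intro k hk
    simp only [lab, Sum.elim_inr, if_pos (mem_image_of_mem y hk)]
    rw [hM k hk x0 hx0M]
  have l3 : ∀ b ∈ N, b ∉ I.image y → lab (Sum.inr b) = Sum.inl (g b) := by
    intro b h1 h2
    simp only [lab, Sum.elim_inr, if_neg h2, if_pos h1]
  have l4 : ∀ a ∈ M, a ∉ J.image x → lab (Sum.inl a) = B (g' a) := by
    intro a h1 h2
    simp only [lab, Sum.elim_inl, if_neg h2, if_pos h1]
  have l5 : ∀ a ∉ M, a ∉ J.image x → lab (Sum.inl a) = Sum.inl (vec χ (p a) a) := by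
    intro a h1 h2
    simp only [lab, Sum.elim_inl, if_neg h2, if_neg h1]
  have l6 : ∀ b ∉ N, b ∉ I.image y → lab (Sum.inr b) = B (vec χ b (q b)) := by
    intro b h1 h2
    simp only [lab, Sum.elim_inr, if_neg h2, if_neg h1]
  let R : Fin n ⊕ Fin m → Fin n ⊕ Fin m → Prop := fun a b =>
    lab a = lab b ∧ ∃ he : (K n m).Adj a b, χ ⟨s(a, b), he⟩ = col (lab a)
  have r3 : ∀ b ∈ N, b ∉ I.image y → R (Sum.inr b) (Sum.inl (x (g b))) := by
    intro b h1 h2
    refine ⟨(l3 b h1 h2).trans (l1 _ (hg b)).symm, edge2 χ _ _ ?_⟩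
    rw [l3 b h1 h2]
    exact hN _ (hg b) b h1
  have r4 : ∀ a ∈ M, a ∉ J.image x → R (Sum.inl a) (Sum.inr (y (g' a))) := by
    intro a h1 h2
    refine ⟨(l4 a h1 h2).trans (l2 _ (hg' a)).symm, edge1 χ _ _ ?_⟩
    rw [l4 a h1 h2, hcol]
    exact hM _ (hg' a) a h1
  have r5 : ∀ k ∈ I, Relation.ReflTransGen R (Sum.inr (y k)) (rt (B k)) := by
    intro k hk
    by_cases h1 : k = v ∧ v ∈ J
    · obtain ⟨rfl, h1⟩ := h1
      have e1 : B v = Sum.inl v := by simp only [B, h1, and_self, if_true]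
      have e2 : g' x0 = v := by simp only [g', hk, and_self, if_true]
      have e3 : g y0 = v := by simp only [g, h1, and_self, if_true]
      have s1 : R (Sum.inr (y v)) (Sum.inl x0) := by
        refine ⟨by rw [l2 _ hk, l4 _ hx0M hx0J, e2], edge2 χ _ _ ?_⟩
        rw [l2 _ hk, hcol]
        exact hM _ hk _ hx0M
      have s2 : R (Sum.inl x0) (Sum.inr y0) := by
        refine ⟨by rw [l4 _ hx0M hx0J, e2, l3 _ hy0N hy0I, e3, e1], edge1 χ _ _ ?_⟩
        rw [l4 _ hx0M hx0J, hcol, e2]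
      have s3 := r3 _ hy0N hy0I
      rw [e3] at s3
      rw [e1]
      exact .head s1 (.head s2 (.single s3))
    · have e1 : B k = Sum.inr k := by simp only [B, if_neg h1]
      rw [e1]
      exact .refl
  have hcard : #S ≤ 2 * r - 1 := by
    have h1 : #S ≤ #J + #(I.filter fun k => ¬(k = v ∧ v ∈ J)) :=
      (card_union_le _ _).trans (add_le_add card_image_le card_image_le)
    have h2 : #((univ : Finset (Fin r)).erase v) = r - 1 := by simp
    have h3 : ∀ A : Finset (Fin r), #A ≤ r := fun A => (card_le_univ A).trans (by simp)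
    by_cases hv : v ∈ J
    · have h4 : (I.filter fun k => ¬(k = v ∧ v ∈ J)) ⊆ univ.erase v := by
        intro k hk
        exact mem_erase.mpr ⟨fun h => (mem_filter.mp hk).2 ⟨h, hv⟩, mem_univ _⟩
      have := card_le_card h4
      have := h3 J
      omega
    · have h4 : J ⊆ univ.erase v := by
        intro k hk
        exact mem_erase.mpr ⟨fun h => hv (h ▸ hk), mem_univ _⟩
      have := card_le_card h4
      have := h3 (I.filter fun k => ¬(k = v ∧ v ∈ J))
      omega
  have key : ∀ u, lab u ∈ S ∧ Relation.ReflTransGen R u (rt (lab u)) := by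
    rintro (a | b)
    · by_cases h1 : a ∈ J.image x
      · obtain ⟨j, hj, rfl⟩ := mem_image.mp h1
        rw [l1 j hj]
        exact ⟨hSJ j hj, .refl⟩
      · by_cases h2 : a ∈ M
        · rw [l4 a h2 h1]
          exact ⟨hSI _ (hg' a), .head (r4 a h2 h1) (r5 _ (hg' a))⟩
        · obtain ⟨h3, ⟨h4, h5⟩, h6⟩ := hp a
          have e1 : g (p a) = vec χ (p a) a := by
            simp only [g, h3, false_and, if_false, hp' a, h5, if_true]
          have s1 : R (Sum.inl a) (Sum.inr (p a)) := by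
            refine ⟨by rw [l5 a h2 h1, l3 _ h4 h6, e1], edge1 χ _ _ ?_⟩
            rw [l5 a h2 h1]
            rfl
          have s2 := r3 _ h4 h6
          rw [e1] at s2
          rw [l5 a h2 h1]
          exact ⟨hSJ _ h5, .head s1 (.single s2)⟩
    · by_cases h1 : b ∈ I.image y
      · obtain ⟨k, hk, rfl⟩ := mem_image.mp h1
        rw [l2 k hk]
        exact ⟨hSI k hk, r5 k hk⟩
      · by_cases h2 : b ∈ N
        · rw [l3 b h2 h1]
          exact ⟨hSJ _ (hg b), .single (r3 b h2 h1)⟩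
        · obtain ⟨h3, ⟨h4, h5⟩, h6⟩ := hq b
          have e1 : g' (q b) = vec χ b (q b) := by
            simp only [g', h3, false_and, if_false, hq' b, h5, if_true]
          have s1 : R (Sum.inr b) (Sum.inl (q b)) := by
            refine ⟨by rw [l6 b h2 h1, l4 _ h4 h6, e1], edge2 χ _ _ ?_⟩
            rw [l6 b h2 h1, hcol]
          have s2 := r4 _ h4 h6
          rw [e1] at s2
          rw [l6 b h2 h1]
          exact ⟨hSI _ h5, .head s1 (.head s2 (r5 _ h5))⟩
  exact (part_of_reach (K n m) χ lab col rt S (fun u => (key u).1) fun u => (key u).2).mono hcard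

end Pool.Agent.MP_4e8562_co.H78
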