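import Mathlib
import Pool.Agent.MP_4e8562_co.H78.Upper
import Pool.Agent.MP_4e8562_co.H78.Gadget

/-!
The lower bound `2 r - 1`.
-/

namespace Pool.Agent.MP_4e8562_co.H78

open Finset Pool.Agent.MP_4e8562_co.H97

theorem lower_lab {n m r k : ℕ} (hr : 0 < r) (χ : (K n m).edgeSet → Fin r)
    (h : Part (K n m) χ k) :
    ∃ φ : Fin n → Fin r, ∀ {L : Type} [DecidableEq L] (lab : Fin n → L),
      (∀ a a' b, vec χ b a = φ a → vec χ b a' = φ a → φ a' = φ a → lab a = lab a') →
      #(univ.image lab) + av (vec χ) φ ≤ k := by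
  classical
  have : Nonempty (Fin r) := ⟨⟨0, hr⟩⟩
  obtain ⟨𝒯, h1, h2, h3⟩ := h
  choose tr htr huniq using h3
  choose! col hcol using fun T hT => (h2 T hT).2
  let c : Fin n → Fin r := fun a => col (tr (Sum.inl a))
  refine ⟨c, fun {L} _ lab hlab => le_trans ?_ h1⟩
  have hedge : ∀ T ∈ 𝒯, ∀ a b, T.Adj (Sum.inl a) (Sum.inr b) → vec χ b a = col T ∧ c a = col T := by
    intro T hT a b hab
    refine ⟨hcol _ hT ⟨s(Sum.inl a, Sum.inr b), K_adj a b⟩ hab, ?_⟩
    have h4 : T = tr (Sum.inl a) := huniq _ _ ⟨hT, T.edge_vert hab⟩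
    rw [h4]
  have hsingle : ∀ b : Fin m, (∀ a, vec χ b a ≠ c a) → ∀ v ∈ (tr (Sum.inr b)).verts,
      v = Sum.inr b := by
    intro b hb v hv
    by_contra hne
    have hT := (h2 _ (htr (Sum.inr b)).1).1
    obtain ⟨p⟩ := hT.connected.preconnected ⟨Sum.inr b, (htr (Sum.inr b)).2⟩ ⟨v, hv⟩
    cases p with
    | nil => exact hne rfl
    | @cons _ w _ hadj _ =>
      have hadj' : (tr (Sum.inr b)).Adj (Sum.inr b) w.1 := hadj
      have hG := (tr (Sum.inr b)).adj_sub hadj'
      obtain ⟨w, hw⟩ := w
      rcases w with a | b'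
      · obtain ⟨h5, h6⟩ := hedge _ (htr (Sum.inr b)).1 a b hadj'.symm
        exact hb a (h5.trans h6.symm)
      · simp at hG
  have hsame : ∀ a a', tr (Sum.inl a) = tr (Sum.inl a') → lab a = lab a' := by
    intro a a' haa
    have hT0 := (htr (Sum.inl a)).1
    have hT := (h2 _ hT0).1
    have hreach := (SimpleGraph.reachable_iff_reflTransGen _ _).mp
      (hT.connected.preconnected ⟨Sum.inl a, (htr (Sum.inl a)).2⟩
        ⟨Sum.inl a', haa ▸ (htr (Sum.inl a')).2⟩)
    have key : ∀ w, Relation.ReflTransGen (tr (Sum.inl a)).coe.Adj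
        ⟨Sum.inl a, (htr (Sum.inl a)).2⟩ w → Sum.elim (fun u => lab a = lab u)
          (fun b => ∃ u, (tr (Sum.inl a)).Adj (Sum.inl u) (Sum.inr b) ∧ lab a = lab u) w.1 := by
      intro w hw
      induction hw with
      | refl => rfl
      | @tail u v _ huv ih =>
        have huv' : (tr (Sum.inl a)).Adj u.1 v.1 := huv
        have hG := (tr (Sum.inl a)).adj_sub huv'
        obtain ⟨u | u, hu⟩ := u <;> obtain ⟨v | v, hv⟩ := v
        · simp at hG
        · exact ⟨u, huv', ih⟩
        · obtain ⟨z, hz, hz'⟩ := ih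
          obtain ⟨e1, e2⟩ := hedge _ hT0 z u hz
          obtain ⟨e3, e4⟩ := hedge _ hT0 v u huv'.symm
          exact hz'.trans (hlab z v u (e1.trans e2.symm) (e3.trans e2.symm) (e4.trans e2.symm))
        · simp at hG
    exact key _ hreach
  let A : Finset (K n m).Subgraph := univ.image fun a => tr (Sum.inl a)
  let B : Finset (K n m).Subgraph :=
    ({b | ∀ a, vec χ b a ≠ c a} : Finset (Fin m)).image fun b => tr (Sum.inr b)
  have hA : #(univ.image lab) ≤ #A := by
    have h5 : ∀ l ∈ univ.image lab, ∃ T ∈ A, ∀ a, tr (Sum.inl a) = T → lab a = l := by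
      intro l hl
      obtain ⟨a, _, rfl⟩ := mem_image.mp hl
      exact ⟨_, mem_image_of_mem _ (mem_univ a), fun a' h => hsame a' a h⟩
    choose! F hF hF' using h5
    refine card_le_card_of_injOn F hF fun l hl l' hl' e => ?_
    obtain ⟨a, _, ha⟩ := mem_image.mp (hF l hl)
    exact (hF' l hl a ha).symm.trans (hF' l' hl' a (ha.trans e))
  have hB : av (vec χ) c = #B := by
    rw [card_image_of_injOn]
    · rfl
    · intro b hb b' _ hbb
      have hb1 := (mem_filter.mp hb).2
      have := hsingle b hb1 (Sum.inr b') (by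
        have h5 : tr (Sum.inr b) = tr (Sum.inr b') := hbb
        rw [h5]
        exact (htr _).2)
      exact (Sum.inr.inj this).symm
  have hdis : Disjoint A B := by
    rw [disjoint_left]
    intro T hTA hTB
    obtain ⟨a, _, rfl⟩ := mem_image.mp hTA
    obtain ⟨b, hb, hb2⟩ := mem_image.mp hTB
    have := hsingle b (mem_filter.mp hb).2 (Sum.inl a) (by
      rw [hb2]
      exact (htr _).2)
    simp at this
  have hsub : A ∪ B ⊆ 𝒯 := by
    intro T hT
    rcases mem_union.mp hT with hT | hT
    · obtain ⟨a, _, rfl⟩ := mem_image.mp hT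
      exact (htr _).1
    · obtain ⟨b, _, rfl⟩ := mem_image.mp hT
      exact (htr _).1
  calc #(univ.image lab) + av (vec χ) c ≤ #A + #B := by omega
    _ = #(A ∪ B) := (card_union_of_disjoint hdis).symm
    _ ≤ #𝒯 := card_le_card hsub

/-- the label of a gadget point `c` whose tree has colour `v` -/
def glab {r : ℕ} (side : Fin r → Bool) (c v : Fin r) : Bool × Fin r :=
  if side v = side c ∧ v ≠ c then (false, v) else (true, c)

/-- the label of a point whose tree has colour `v` -/
def plab {r h : ℕ} (side : Fin r → Bool) :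
    Pt r h → Fin r → Option (Fin h ⊕ Bool × Fin 3) × Bool × Fin r
  | none, v => (none, false, v)
  | some (.inl x), v => (some (.inl x), false, v)
  | some (.inr g), v => (some (.inr (side g.1, g.2)), glab side g.1 v)

theorem gadget_count {r : ℕ} (side : Fin r → Bool) (s : Bool) (hs : 2 ≤ #{c | side c = s})
    (ψ : Fin r → Fin r) : ∃ M : Finset (Fin r),
      2 ≤ #(({c | side c = s} : Finset (Fin r)).image fun c => glab side c (ψ c)) ∧
      #{c | side c = s} ≤
        #(({c | side c = s} : Finset (Fin r)).image fun c => glab side c (ψ c)) + #M ∧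
      ∀ c ∈ M, side c = s ∧ side (ψ c) = s ∧ ∀ c', side c' = s → ψ c' ≠ c := by
  set C : Finset (Fin r) := {c | side c = s} with hC
  have hmem : ∀ c, c ∈ C ↔ side c = s := by simp [hC]
  refine ⟨C \ (C.image fun c => glab side c (ψ c)).image Prod.snd, ?_, ?_, ?_⟩
  · by_contra hlt
    have h1 := card_le_one.mp (by omega : #(C.image fun c => glab side c (ψ c)) ≤ 1)
    have h2 : ∀ c ∈ C, ∀ c' ∈ C, glab side c (ψ c) = glab side c' (ψ c') := fun c hc c' hc' =>
      h1 _ (mem_image_of_mem _ hc) _ (mem_image_of_mem _ hc')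
    obtain ⟨a, ha, b, hb, hab⟩ := one_lt_card.mp (by omega : 1 < #C)
    have h3 := h2 a ha b hb
    by_cases h4 : side (ψ a) = side a ∧ ψ a ≠ a
    · have h5 := h2 a ha (ψ a) ((hmem _).mpr (h4.1.trans ((hmem _).mp ha)))
      simp only [glab, if_pos h4] at h5
      split_ifs at h5 with h6
      · exact h6.2 (Prod.mk.inj h5).2.symm
      · simp at h5
    · simp only [glab, if_neg h4] at h3
      split_ifs at h3 with h6
      · simp at h3
      · exact hab (Prod.mk.inj h3).2
  · have h1 := le_card_sdiff ((C.image fun c => glab side c (ψ c)).image Prod.snd) C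
    have h2 := card_image_le (s := C.image fun c => glab side c (ψ c)) (f := Prod.snd)
    omega
  · intro c hc
    obtain ⟨h1, h2⟩ := mem_sdiff.mp hc
    have h3 : ∀ c' ∈ C, (glab side c' (ψ c')).2 ≠ c := fun c' hc' e =>
      h2 (mem_image.mpr ⟨_, mem_image_of_mem _ hc', e⟩)
    have h4 := h3 c h1
    have h5 := (hmem c).mp h1
    have h6 : side (ψ c) = side c ∧ ψ c ≠ c := by
      by_contra h6
      simp only [glab, if_neg h6] at h4
      exact h4 rfl
    refine ⟨h5, h6.1.trans h5, fun c' hc' e => ?_⟩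
    have h7 := h3 c' ((hmem _).mpr hc')
    by_cases h8 : c' = c
    · exact h6.2 (h8 ▸ e)
    · have h9 : side (ψ c') = side c' ∧ ψ c' ≠ c' := by
        rw [e]
        exact ⟨h5.trans hc'.symm, Ne.symm h8⟩
      simp only [glab, if_pos h9] at h7
      exact h7 e

theorem lower_colouring {n m r h : ℕ} (hr : r = h + 13) (side : Fin r → Bool)
    (hs : ∀ s, 7 ≤ #{c | side c = s}) (hs' : ∀ s, r ≤ 2 * #{c | side c = s} + 1)
    (hn : h + 3 * r < n) (hm : r ^ (h + 3 * r + 1) * (2 * r - 1) ≤ m) :
    ∃ χ : (K n m).edgeSet → Fin r, ∀ k, Part (K n m) χ k → 2 * r - 1 ≤ k := by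
  classical
  have hr0 : 0 < r := by omega
  obtain ⟨e⟩ : Nonempty (Pt r h ↪ Fin n) :=
    Function.Embedding.nonempty_of_card_le (by simp; omega)
  let π : Fin n → Pt r h := fun a => if ha : ∃ u, e u = a then ha.choose else none
  have hπ : ∀ u, π (e u) = u := by
    intro u
    have ha : ∃ u', e u' = e u := ⟨u, rfl⟩
    simp only [π, dif_pos ha]
    exact e.injective ha.choose_spec
  have hπ' : ∀ a u, π a = some u → a = e (some u) := by
    intro a u hu
    simp only [π] at hu
    split_ifs at hu with ha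
    rw [← hu, ha.choose_spec]
  have hne : Nonempty {y : Pt r h → Fin r // Valid side y} := by
    have h1 : ∀ s, ∃ a b d : Fin r, side a = s ∧ side b = s ∧ side d = s ∧ a ≠ b ∧ a ≠ d := by
      intro s
      obtain ⟨a, b, d, ha, hb, hd, h1, h2, -⟩ :=
        two_lt_card_iff.mp (lt_of_lt_of_le (by norm_num) (hs s))
      simp only [mem_filter, mem_univ, true_and] at ha hb hd
      exact ⟨a, b, d, ha, hb, hd, h1, h2⟩
    choose a b d ha hb hd hab had using h1
    obtain ⟨y, hy, -⟩ := exists_word hr side hs (fun g => b (side g.1)) (fun _ => d false)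
      (d false) (fun _ => 0) a ha (fun s e => by
        cases s
        · exact had _ e
        · have := ha true
          rw [e, hd] at this
          exact absurd this (by decide)) (fun s => by simp only [ha, hb])
      fun s c hc => by simp only [hc]; exact (hab s).symm
    exact ⟨⟨y, hy⟩⟩
  have : Nonempty (Fin (2 * r - 1)) := ⟨⟨0, by omega⟩⟩
  obtain ⟨ι⟩ : Nonempty ({y : Pt r h → Fin r // Valid side y} × Fin (2 * r - 1) ↪ Fin m) := by
    refine Function.Embedding.nonempty_of_card_le ?_
    rw [Fintype.card_prod, Fintype.card_fin, Fintype.card_fin]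
    refine le_trans (Nat.mul_le_mul_right _ ((Fintype.card_subtype_le _).trans (le_of_eq ?_))) hm
    simp [mul_comm]
  let τ : Fin m → {y : Pt r h → Fin r // Valid side y} := fun b => (Function.invFun ι b).1
  have hτ : ∀ z, τ (ι z) = z.1 := fun z => by
    simp only [τ, Function.leftInverse_invFun ι.injective z]
  obtain ⟨χ, hχ⟩ := exists_colouring (fun b a => (τ b).1 (π a) : Fin m → Fin n → Fin r)
  refine ⟨χ, fun k hk => ?_⟩
  obtain ⟨φ, hφ⟩ := lower_lab hr0 χ hk
  have hcount := hφ (fun a => plab side (π a) (φ a)) (by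
    intro a a' b e1 e2 e3
    rw [hχ] at e1 e2
    rw [e3]
    by_cases h1 : π a = π a'
    · rw [h1]
    · obtain ⟨c, c', t, f1, f2, f3, f4, f5, f6⟩ := (τ b).2 _ _ h1 (e1.trans e2.symm)
      have e1' : (τ b).1 (π a) = φ a := e1
      rw [e1'] at f3 f4 f5 f6
      rw [f1, f2]
      simp only [plab, glab, f3, f4, f5, f6, ne_eq, not_false_eq_true, and_self, if_true])
  rw [hχ] at hcount
  by_contra hlt
  set T := univ.image fun a => plab side (π a) (φ a) with hT
  let φG : Fin r × Fin 3 → Fin r := fun g => φ (e (some (.inr g)))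
  choose M hM1 hM2 hM3 using fun g : Bool × Fin 3 => gadget_count side g.1
    (le_trans (by norm_num) (hs g.1)) fun c => φG (c, g.2)
  let P : Finset (Fin r) := ({a | π a = none} : Finset (Fin n)).image φ
  have hmemT : ∀ u, plab side u (φ (e u)) ∈ T := fun u =>
    mem_image.mpr ⟨e u, mem_univ _, by rw [hπ]⟩
  have hsum := card_eq_sum_card_fiberwise (s := T) (t := univ) (f := Prod.fst)
    fun _ _ => mem_univ _
  rw [Fintype.sum_option, Fintype.sum_sum_type] at hsum
  have c1 : #P ≤ #{l ∈ T | l.1 = none} := by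
    refine card_le_card_of_injOn (fun v => (none, false, v)) ?_ fun v _ w _ e => by simpa using e
    intro v hv
    obtain ⟨a, ha, rfl⟩ := mem_image.mp hv
    refine mem_filter.mpr ⟨mem_image.mpr ⟨a, mem_univ _, ?_⟩, rfl⟩
    rw [(mem_filter.mp ha).2]
    rfl
  have c2 : h ≤ ∑ x : Fin h, #{l ∈ T | l.1 = some (.inl x)} := by
    have : ∀ x ∈ (univ : Finset (Fin h)), 1 ≤ #{l ∈ T | l.1 = some (.inl x)} := fun x _ =>
      card_pos.mpr ⟨_, mem_filter.mpr ⟨hmemT (some (.inl x)), rfl⟩⟩
    simpa using sum_le_sum this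
  let N : Bool × Fin 3 → ℕ := fun g =>
    #(({c | side c = g.1} : Finset (Fin r)).image fun c => glab side c (φG (c, g.2)))
  have c3 : ∑ g, N g ≤ ∑ g : Bool × Fin 3, #{l ∈ T | l.1 = some (.inr g)} := by
    refine sum_le_sum fun g _ => card_le_card_of_injOn (fun z => (some (.inr g), z)) ?_
      fun v _ w _ e => by simpa using e
    intro z hz
    obtain ⟨c, hc, rfl⟩ := mem_image.mp hz
    have h1 := hmemT (some (.inr (c, g.2)))
    have h2 : side c = g.1 := (mem_filter.mp hc).2
    simp only [plab, h2] at h1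
    exact mem_filter.mpr ⟨h1, rfl⟩
  have hund : ∀ i, (∀ s, ∃ t, ∃ c ∈ M (s, t), c ≠ i) → i ∈ P := by
    intro i hi
    choose ts cs h1 h2 using hi
    obtain ⟨y, y1, y2, y3, y4⟩ := exists_word hr side hs φG (fun x => φ (e (some (.inl x)))) i
      ts cs (fun s => (hM3 _ _ (h1 s)).1) h2 (fun s => (hM3 _ _ (h1 s)).2.1)
      fun s => (hM3 _ _ (h1 s)).2.2
    by_contra hP
    have h3 : 2 * r - 1 ≤ av (fun b a => (τ b).1 (π a)) φ := by
      have h4 := card_le_card_of_injOn (s := (univ : Finset (Fin (2 * r - 1))))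
        (t := {b | ∀ a, (τ b).1 (π a) ≠ φ a}) (fun j => ι (⟨y, y1⟩, j)) (by
          intro j _
          refine mem_filter.mpr ⟨mem_univ _, fun a => ?_⟩
          rw [hτ]
          rcases ha : π a with _ | x | g
          · intro h5
            exact hP (mem_image.mpr ⟨a, mem_filter.mpr ⟨mem_univ _, ha⟩, h5.symm.trans y2⟩)
          · rw [hπ' a _ ha]
            exact y3 x
          · rw [hπ' a _ ha]
            exact y4 g) fun j _ j' _ e => by simpa using e
      rw [card_univ, Fintype.card_fin] at h4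
      exact h4
    omega
  have hP1 : 0 < #P := card_pos.mpr ⟨φ (e none), mem_image_of_mem _
    (mem_filter.mpr ⟨mem_univ _, hπ none⟩)⟩
  have hN : ∑ g, N g = N (false, 0) + N (false, 1) + N (false, 2) +
      (N (true, 0) + N (true, 1) + N (true, 2)) := by
    rw [Fintype.sum_prod_type, Fintype.sum_bool, Fin.sum_univ_three, Fin.sum_univ_three, add_comm]
  have n1 : ∀ g, 2 ≤ N g := hM1
  have n2 : ∀ s t, #{c | side c = s} ≤ N (s, t) + #(M (s, t)) := fun s t => hM2 (s, t)
  have hb : #P + ∑ g, N g ≤ r + 11 := by omega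
  rw [hN] at hb
  have a0 := n1 (false, 0)
  have a1 := n1 (false, 1)
  have a2 := n1 (false, 2)
  have b0 := n1 (true, 0)
  have b1 := n1 (true, 1)
  have b2 := n1 (true, 2)
  have step1 : ∀ s, ∃ t, (M (s, t)).Nonempty := by
    intro s
    by_contra h1
    push Not at h1
    have d0 := n2 s 0
    have d1 := n2 s 1
    have d2 := n2 s 2
    have d3 := hs' s
    have d4 := hs s
    simp only [h1, card_empty] at d0 d1 d2
    cases s <;> omega
  choose ts cs hcs using step1
  have step2 : r - 2 ≤ #P := by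
    have h1 : ({cs false, cs true} : Finset (Fin r))ᶜ ⊆ P := by
      intro i hi
      simp only [mem_compl, mem_insert, mem_singleton, not_or] at hi
      refine hund i fun s => ⟨ts s, cs s, hcs s, ?_⟩
      cases s
      exacts [Ne.symm hi.1, Ne.symm hi.2]
    have h2 := card_le_card h1
    rw [card_compl, Fintype.card_fin] at h2
    have h3 := card_le_two (a := cs false) (b := cs true)
    omega
  have step3 : (univ : Finset (Fin r)) ⊆ P := by
    intro i _
    refine hund i fun s => ⟨0, exists_mem_ne ?_ i⟩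
    have d0 := n2 s 0
    have d4 := hs s
    cases s <;> omega
  have h2 := card_le_card step3
  rw [card_univ, Fintype.card_fin] at h2
  omega

end Pool.Agent.MP_4e8562_co.H78
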