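import Mathlib
import Pool.Agent.MP_4e8562_co.H78.Tools

/-!
Monochromatic connected sets and the finite part of the three colour argument.
-/

namespace Pool.Agent.MP_4e8562_co.H78

open Relation

variable {V : Type} {r : ℕ} (G : SimpleGraph V) (c : V → V → Fin r)

/-- an edge of colour `i` inside `S` -/
def Ed (i : Fin r) (S : Set V) (p q : V) : Prop := p ∈ S ∧ q ∈ S ∧ G.Adj p q ∧ c p q = i

/-- `S` is connected in colour `i` -/
def Conn (i : Fin r) (S : Set V) : Prop := ∀ u ∈ S, ∀ v ∈ S, ReflTransGen (Ed G c i S) u v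

/-- the component of `u` in colour `i` inside `U` -/
def comp (i : Fin r) (U : Set V) (u : V) : Set V := {v | ReflTransGen (Ed G c i U) u v}

/-- exactly one of four statements holds -/
def Ex4 (p q s t : Prop) : Prop :=
  (p ∨ q ∨ s ∨ t) ∧ ¬(p ∧ q) ∧ ¬(p ∧ s) ∧ ¬(p ∧ t) ∧ ¬(q ∧ s) ∧ ¬(q ∧ t) ∧ ¬(s ∧ t)

/-- partition into four monochromatic connected sets -/
def Cov4 : Prop := ∃ (S0 S1 S2 S3 : Set V) (i0 i1 i2 i3 : Fin r), Conn G c i0 S0 ∧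
  Conn G c i1 S1 ∧ Conn G c i2 S2 ∧ Conn G c i3 S3 ∧ ∀ v, Ex4 (v ∈ S0) (v ∈ S1) (v ∈ S2) (v ∈ S3)

variable {G c}

theorem reach_mono {i : Fin r} {S T : Set V} (h : S ⊆ T) {u v : V}
    (huv : ReflTransGen (Ed G c i S) u v) : ReflTransGen (Ed G c i T) u v := by
  induction huv with
  | refl => exact .refl
  | tail _ e ih => exact ih.tail ⟨h e.1, h e.2.1, e.2.2⟩

theorem conn_empty (i : Fin r) : Conn G c i ∅ := fun _ h => h.elim

theorem conn_single (i : Fin r) (a : V) : Conn G c i {a} := by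
  rintro u rfl v rfl
  exact .refl

variable (hc : ∀ u v, c u v = c v u)
include hc

theorem reach_symm {i : Fin r} {S : Set V} {u v : V} (huv : ReflTransGen (Ed G c i S) u v) :
    ReflTransGen (Ed G c i S) v u := by
  induction huv with
  | refl => exact .refl
  | tail _ e ih => exact .head ⟨e.2.1, e.1, e.2.2.1.symm, (hc _ _).trans e.2.2.2⟩ ih

theorem Conn.attach {i : Fin r} {S : Set V} (hS : Conn G c i S) (U : Set V)
    (h : ∀ v ∈ U, ∃ u ∈ S, G.Adj v u ∧ c v u = i) : Conn G c i (S ∪ U) := by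
  have key : ∀ v ∈ S ∪ U, ∃ u ∈ S, ReflTransGen (Ed G c i (S ∪ U)) v u := by
    rintro v (hv | hv)
    · exact ⟨v, hv, .refl⟩
    · obtain ⟨u, hu, e⟩ := h v hv
      exact ⟨u, hu, .single ⟨Or.inr hv, Or.inl hu, e⟩⟩
  intro u hu v hv
  obtain ⟨a, ha, h1⟩ := key u hu
  obtain ⟨b, hb, h2⟩ := key v hv
  exact h1.trans ((reach_mono Set.subset_union_left (hS a ha b hb)).trans (reach_symm hc h2))

theorem Conn.join {i : Fin r} {S T : Set V} (hS : Conn G c i S) (hT : Conn G c i T) {a b : V}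
    (ha : a ∈ S) (hb : b ∈ T) (h1 : G.Adj a b) (h2 : c a b = i) : Conn G c i (S ∪ T) := by
  have key : ∀ v ∈ S ∪ T, ReflTransGen (Ed G c i (S ∪ T)) v b := by
    rintro v (hv | hv)
    · exact (reach_mono Set.subset_union_left (hS v hv a ha)).tail ⟨Or.inl ha, Or.inr hb, h1, h2⟩
    · exact reach_mono Set.subset_union_right (hT v hv b hb)
  exact fun u hu v hv => (key u hu).trans (reach_symm hc (key v hv))

theorem conn_complete {i : Fin r} {P Q : Set V} {a b : V} (ha : a ∈ P) (hb : b ∈ Q)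
    (h : ∀ u ∈ P, ∀ v ∈ Q, G.Adj u v ∧ c u v = i) : Conn G c i (P ∪ Q) := by
  have h1 := ((conn_single i a).attach hc Q fun v hv =>
    ⟨a, rfl, (h a ha v hv).1.symm, (hc _ _).trans (h a ha v hv).2⟩).attach hc P fun u hu =>
      ⟨b, Or.inr hb, h u hu b hb⟩
  have h2 : {a} ∪ Q ∪ P = P ∪ Q := by
    ext v
    simp only [Set.mem_union, Set.mem_singleton_iff]
    grind (splits := 60)
  rwa [h2] at h1

theorem conn_comp (i : Fin r) (U : Set V) (u : V) : Conn G c i (comp G c i U u) := by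
  have key : ∀ v, ReflTransGen (Ed G c i U) u v →
      ReflTransGen (Ed G c i (comp G c i U u)) u v := by
    intro v hv
    induction hv with
    | refl => exact .refl
    | tail h e ih => exact ih.tail ⟨h, h.tail e, e.2.2⟩
  exact fun a ha b hb => (reach_symm hc (key a ha)).trans (key b hb)

omit hc in
theorem comp_sub {i : Fin r} {U : Set V} {u : V} (hu : u ∈ U) : comp G c i U u ⊆ U := by
  intro v hv
  induction hv with
  | refl => exact hu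
  | tail _ e _ => exact e.2.1

theorem conn_comp_diff (i : Fin r) (U : Set V) (u w : V) :
    Conn G c i (comp G c i U w \ comp G c i U u) := by
  by_cases h : w ∈ comp G c i U u
  · have : comp G c i U w \ comp G c i U u = ∅ :=
      Set.sdiff_eq_empty.mpr fun v hv => ReflTransGen.trans h hv
    rw [this]
    exact conn_empty i
  · have : comp G c i U w \ comp G c i U u = comp G c i U w :=
      sdiff_eq_left.mpr (Set.disjoint_left.mpr fun v h1 h2 =>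
        h (ReflTransGen.trans h2 (reach_symm hc h1)))
    rw [this]
    exact conn_comp hc i U w

omit hc

variable (G c) in
/-- sets that can be made connected with the help of reserved vertices -/
def Box (o a b : Fin r) (A B : Set V) (P Q : Fin r → Set V → Prop) : Prop :=
  ∀ Za Zb Wa Wb : Set V, P a Za → P b Zb → Q a Wa → Q b Wb → Disjoint Za Zb → Disjoint Wa Wb →
    ∃ T Na Nb Ma Mb : Set V, Conn G c o T ∧ Conn G c a (Za ∪ Na) ∧ Conn G c b (Zb ∪ Nb) ∧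
      Conn G c a (Wa ∪ Ma) ∧ Conn G c b (Wb ∪ Mb) ∧ (Za = ∅ → Na = ∅) ∧ (Zb = ∅ → Nb = ∅) ∧
      (Wa = ∅ → Ma = ∅) ∧ (Wb = ∅ → Mb = ∅) ∧ ∀ v, Ex4 (v ∈ Na) (v ∈ Nb) (v ∈ Ma) (v ∈ Mb) ∧
        v ∉ T ∧ v ∉ A ∧ v ∉ B ∨ v ∉ Na ∧ v ∉ Nb ∧ v ∉ Ma ∧ v ∉ Mb ∧ (v ∈ T ↔ v ∉ A ∧ v ∉ B)

theorem Box.swap1 {o a b : Fin r} {A B : Set V} {P Q : Fin r → Set V → Prop}
    (h : Box G c o a b A B P Q) : Box G c o b a A B P Q := by
  intro Za Zb Wa Wb h1 h2 h3 h4 h5 h6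
  obtain ⟨T, Na, Nb, Ma, Mb, e1, e2, e3, e4, e5, e6, e7, e8, e9, e⟩ :=
    h Zb Za Wb Wa h2 h1 h4 h3 h5.symm h6.symm
  refine ⟨T, Nb, Na, Mb, Ma, e1, e3, e2, e5, e4, e7, e6, e9, e8, fun v => ?_⟩
  have := e v
  unfold Ex4 at this ⊢
  grind (splits := 60)

theorem Box.swap2 {o a b : Fin r} {A B : Set V} {P Q : Fin r → Set V → Prop}
    (h : Box G c o a b A B P Q) : Box G c o a b B A Q P := by
  intro Za Zb Wa Wb h1 h2 h3 h4 h5 h6
  obtain ⟨T, Na, Nb, Ma, Mb, e1, e2, e3, e4, e5, e6, e7, e8, e9, e⟩ :=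
    h Wa Wb Za Zb h3 h4 h1 h2 h6 h5
  refine ⟨T, Ma, Mb, Na, Nb, e1, e4, e5, e2, e3, e8, e9, e6, e7, fun v => ?_⟩
  have := e v
  unfold Ex4 at this ⊢
  grind (splits := 60)

variable (G c) in
/-- the labelled configuration -/
structure Cfg (o a b : Fin r) (Aa Ab Ba Bb : Set V) (P Q : Fin r → Set V → Prop) : Prop where
  box : Box G c o a b (Aa ∪ Ab) (Ba ∪ Bb) P Q
  tri : ∀ k, k = o ∨ k = a ∨ k = b
  adj : ∀ u ∈ Aa ∪ Ab, ∀ v ∈ Ba ∪ Bb, G.Adj u v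
  dis : ∀ v, v ∈ Aa ∪ Ab → v ∉ Ba ∪ Bb
  disA : Disjoint Aa Ab
  disB : Disjoint Ba Bb
  pa : P a Aa
  pb : P b Ab
  qa : Q a Ba
  qb : Q b Bb
  p0 : ∀ k, P k ∅
  q0 : ∀ k, Q k ∅
  spA : ∀ Z ⊆ Aa ∪ Ab, ∃ Z1 ⊆ Z, P a Z1 ∧ P b (Z \ Z1)
  spB : ∀ Z ⊆ Ba ∪ Bb, ∃ Z1 ⊆ Z, Q a Z1 ∧ Q b (Z \ Z1)

variable {o a b : Fin r} {Aa Ab Ba Bb : Set V} {P Q : Fin r → Set V → Prop}

theorem Cfg.swap1 (h : Cfg G c o a b Aa Ab Ba Bb P Q) : Cfg G c o b a Ab Aa Bb Ba P Q := by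
  have sp : ∀ {R : Fin r → Set V → Prop} {Z : Set V}, (∃ Z1 ⊆ Z, R a Z1 ∧ R b (Z \ Z1)) →
      ∃ Z1 ⊆ Z, R b Z1 ∧ R a (Z \ Z1) := by
    rintro R Z ⟨Z1, h1, h2, h3⟩
    exact ⟨Z \ Z1, Set.sdiff_subset, h3, by rwa [Set.sdiff_sdiff_cancel_left h1]⟩
  refine ⟨?_, fun k => by have := h.tri k; tauto, ?_, ?_, h.disA.symm, h.disB.symm, h.pb, h.pa,
    h.qb, h.qa, h.p0, h.q0, ?_, ?_⟩
  · rw [Set.union_comm Ab, Set.union_comm Bb]
    exact h.box.swap1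
  · rw [Set.union_comm Ab, Set.union_comm Bb]
    exact h.adj
  · rw [Set.union_comm Ab, Set.union_comm Bb]
    exact h.dis
  · rw [Set.union_comm Ab]
    exact fun Z hZ => sp (h.spA Z hZ)
  · rw [Set.union_comm Bb]
    exact fun Z hZ => sp (h.spB Z hZ)

theorem Cfg.swap2 (h : Cfg G c o a b Aa Ab Ba Bb P Q) : Cfg G c o a b Ba Bb Aa Ab Q P :=
  ⟨h.box.swap2, h.tri, fun u hu v hv => (h.adj v hv u hu).symm, fun v h1 h2 => h.dis v h2 h1,
    h.disB, h.disA, h.qa, h.qb, h.pa, h.pb, h.q0, h.p0, h.spB, h.spA⟩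

include hc

theorem Cfg.merge (h : Cfg G c o a b Aa Ab Ba Bb P Q) {x y : V} (hx : x ∈ Aa) (hy : y ∈ Ba)
    (hxy : c x y = a) : Cov4 G c := by
  obtain ⟨T, Na, Nb, Ma, Mb, e1, e2, e3, e4, e5, -, -, -, -, e⟩ :=
    h.box Aa Ab Ba Bb h.pa h.pb h.qa h.qb h.disA h.disB
  refine ⟨_, _, _, _, _, _, _, _, e1, e2.join hc e4 (Or.inl hx) (Or.inl hy)
    (h.adj x (Or.inl hx) y (Or.inl hy)) hxy, e3, e5, fun v => ?_⟩
  have h1 := e v
  have h2 := h.dis v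
  have h3 : v ∈ Aa → v ∉ Ab := fun hv => Set.disjoint_left.mp h.disA hv
  have h4 : v ∈ Ba → v ∉ Bb := fun hv => Set.disjoint_left.mp h.disB hv
  simp only [Ex4, Set.mem_union] at h1 h2 ⊢
  grind (splits := 60)

theorem Cfg.drop (h : Cfg G c o a b Aa Ab Ba Bb P Q) (hx : ∀ x ∈ Aa, ∃ y ∈ Bb, c x y = b) :
    Cov4 G c := by
  obtain ⟨T, Na, Nb, Ma, Mb, e1, -, e3, e4, e5, e6, -, -, -, e⟩ :=
    h.box ∅ Ab Ba Bb (h.p0 a) h.pb h.qa h.qb (Set.empty_disjoint _) h.disB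
  refine ⟨_, _, _, _, _, _, _, _, e1, e3, e4, e5.attach hc Aa fun x hx' => ?_, fun v => ?_⟩
  · obtain ⟨y, hy, hxy⟩ := hx x hx'
    exact ⟨y, Or.inl hy, h.adj x (Or.inl hx') y (Or.inr hy), hxy⟩
  have h1 := e v
  have h2 := h.dis v
  have h3 : v ∈ Aa → v ∉ Ab := fun hv => Set.disjoint_left.mp h.disA hv
  have h4 : v ∈ Ba → v ∉ Bb := fun hv => Set.disjoint_left.mp h.disB hv
  simp only [Ex4, Set.mem_union, e6 rfl, Set.mem_empty_iff_false] at h1 h2 ⊢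
  grind (splits := 60)

theorem Cfg.out (h : Cfg G c o a b Aa Ab Ba Bb P Q) (D : Set V)
    (hD : ∀ x ∈ Aa ∪ Ab, ∀ y ∈ Ba ∪ Bb, c x y = o → (x ∈ D ↔ y ∈ D))
    (h1 : ∀ x ∈ Aa, ∀ y ∈ Ba, c x y ≠ a) {xa xb ya yb w : V} (hxa : xa ∈ Aa) (hxb : xb ∈ Ab)
    (hya : ya ∈ Ba) (hyb : yb ∈ Bb) (dxa : xa ∈ D) (dxb : xb ∈ D) (dya : ya ∈ D) (dyb : yb ∈ D)
    (h2 : ∀ y ∈ Ba, c xb y ≠ a) (h3 : ∀ x ∈ Aa, c x yb ≠ a) (hw : w ∈ Aa) (dw : w ∉ D) :
    Cov4 G c := by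
  have col : ∀ x ∈ Aa ∪ Ab, ∀ y ∈ Ba ∪ Bb, c x y ≠ a → ¬(x ∈ D ↔ y ∈ D) →
      G.Adj x y ∧ c x y = b := by
    intro x hx y hy e1 e2
    refine ⟨h.adj x hx y hy, ?_⟩
    rcases h.tri (c x y) with e | e | e
    exacts [absurd (hD x hx y hy e) e2, absurd e e1, e]
  have hwb := col w (Or.inl hw) yb (Or.inr hyb) (h3 w hw) (by tauto)
  by_cases hB : ∃ w' ∈ Ba, w' ∉ D
  · obtain ⟨w', hw', dw'⟩ := hB
    obtain ⟨T, Na, Nb, Ma, Mb, e1, -, e3, -, e5, e6, -, e8, -, e⟩ :=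
      h.box ∅ Ab ∅ Bb (h.p0 a) h.pb (h.q0 a) h.qb (Set.empty_disjoint _) (Set.empty_disjoint _)
    have s1 : Conn G c b ((Aa \ D) ∪ (Ba ∩ D)) := conn_complete hc ⟨hw, dw⟩ ⟨hya, dya⟩
      fun u hu v hv => col u (Or.inl hu.1) v (Or.inl hv.1) (h1 u hu.1 v hv.1)
        fun e => hu.2 (e.mpr hv.2)
    have s2 : Conn G c b ((Aa ∩ D) ∪ (Ba \ D)) := conn_complete hc ⟨hxa, dxa⟩ ⟨hw', dw'⟩
      fun u hu v hv => col u (Or.inl hu.1) v (Or.inl hv.1) (h1 u hu.1 v hv.1)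
        fun e => hv.2 (e.mp hu.2)
    have hwa := col xb (Or.inr hxb) w' (Or.inl hw') (h2 w' hw') (by tauto)
    refine ⟨_, _, _, _, _, _, _, _, e1, s1.join hc e5 (Or.inl ⟨hw, dw⟩) (Or.inl hyb) hwb.1 hwb.2,
      e3.join hc s2 (Or.inl hxb) (Or.inr ⟨hw', dw'⟩) hwa.1 hwa.2, conn_empty o, fun v => ?_⟩
    have h1 := e v
    have h2 := h.dis v
    have h3 : v ∈ Aa → v ∉ Ab := fun hv => Set.disjoint_left.mp h.disA hv
    have h4 : v ∈ Ba → v ∉ Bb := fun hv => Set.disjoint_left.mp h.disB hv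
    simp only [Ex4, Set.mem_union, e6 rfl, e8 rfl, Set.mem_empty_iff_false, Set.mem_sdiff,
      Set.mem_inter_iff] at h1 h2 ⊢
    grind (splits := 60)
  · push Not at hB
    obtain ⟨Z, z1, z2, z3⟩ := h.spA ((Aa ∪ Ab) \ {w}) Set.sdiff_subset
    obtain ⟨T, Na, Nb, Ma, Mb, e1, e2, e3, -, e5, -, -, e8, -, e⟩ :=
      h.box Z _ ∅ Bb z2 z3 (h.q0 a) h.qb Set.disjoint_sdiff_right (Set.empty_disjoint _)
    have s1 := ((conn_single b w).join hc e5 rfl (Or.inl hyb) hwb.1 hwb.2).attach hc Ba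
      fun y hy => by
        have := col w (Or.inl hw) y (Or.inl hy) (h1 w hw y hy) fun e => dw (e.mpr (hB y hy))
        exact ⟨w, Or.inl rfl, this.1.symm, (hc _ _).trans this.2⟩
    refine ⟨_, _, _, _, _, _, _, _, e1, e2, e3, s1, fun v => ?_⟩
    have h1 := e v
    have h2 := h.dis v
    have h4 : v ∈ Ba → v ∉ Bb := fun hv => Set.disjoint_left.mp h.disB hv
    have h5 : v ∈ Z → v ∈ (Aa ∪ Ab) \ {w} := fun hv => z1 hv
    have h6 : v = w → v ∈ Aa := fun e => e ▸ hw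
    simp only [Ex4, Set.mem_union, e8 rfl, Set.mem_empty_iff_false, Set.mem_sdiff,
      Set.mem_singleton_iff] at h1 h2 h5 ⊢
    grind (splits := 60)

theorem Cfg.cov (h : Cfg G c o a b Aa Ab Ba Bb P Q) : Cov4 G c := by
  by_contra hno
  have m1 : ∀ x ∈ Aa, ∀ y ∈ Ba, c x y ≠ a := fun x hx y hy e => hno (h.merge hc hx hy e)
  have m2 : ∀ x ∈ Ab, ∀ y ∈ Bb, c x y ≠ b := fun x hx y hy e => hno (h.swap1.merge hc hx hy e)
  have d1 := mt (h.drop hc) hno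
  have d2 := mt (h.swap1.drop hc) hno
  have d3 := mt (h.swap2.drop hc) hno
  have d4 := mt (h.swap2.swap1.drop hc) hno
  push Not at d1 d2 d3 d4
  obtain ⟨xa, hxa, fxa⟩ := d1
  obtain ⟨xb, hxb, fxb⟩ := d2
  obtain ⟨ya, hya, fya⟩ := d3
  obtain ⟨yb, hyb, fyb⟩ := d4
  let U := (Aa ∪ Ab) ∪ (Ba ∪ Bb)
  let D := comp G c o U xa ∪ comp G c o U xb
  have hD : ∀ x ∈ Aa ∪ Ab, ∀ y ∈ Ba ∪ Bb, c x y = o → (x ∈ D ↔ y ∈ D) := by
    intro x hx y hy e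
    have e1 : Ed G c o U x y := ⟨Or.inl hx, Or.inr hy, h.adj x hx y hy, e⟩
    have e2 : Ed G c o U y x := ⟨Or.inr hy, Or.inl hx, (h.adj x hx y hy).symm, (hc _ _).trans e⟩
    exact ⟨Or.imp (fun p => ReflTransGen.tail p e1) fun p => ReflTransGen.tail p e1,
      Or.imp (fun p => ReflTransGen.tail p e2) fun p => ReflTransGen.tail p e2⟩
  have hD' : ∀ x ∈ Ba ∪ Bb, ∀ y ∈ Aa ∪ Ab, c x y = o → (x ∈ D ↔ y ∈ D) := fun x hx y hy e =>
    (hD y hy x hx ((hc _ _).trans e)).symm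
  have dxa : xa ∈ D := Or.inl ReflTransGen.refl
  have dxb : xb ∈ D := Or.inr ReflTransGen.refl
  have dyb : yb ∈ D := by
    refine (hD xa (Or.inl hxa) yb (Or.inr hyb) ?_).mp dxa
    rcases h.tri (c xa yb) with e | e | e
    exacts [e, absurd ((hc _ _).trans e) (fyb xa hxa), absurd e (fxa yb hyb)]
  have dya : ya ∈ D := by
    refine (hD xb (Or.inr hxb) ya (Or.inl hya) ?_).mp dxb
    rcases h.tri (c xb ya) with e | e | e
    exacts [e, absurd e (fxb ya hya), absurd ((hc _ _).trans e) (fya xb hxb)]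
  have sw : ∀ {S T : Set V} {k : Fin r}, (∀ x ∈ S, ∀ y ∈ T, c x y ≠ k) →
      ∀ y ∈ T, ∀ x ∈ S, c y x ≠ k := fun p y hy x hx e => p x hx y hy ((hc _ _).trans e)
  have sw' : ∀ {S : Set V} {k : Fin r} {y : V}, (∀ x ∈ S, c y x ≠ k) → ∀ x ∈ S, c x y ≠ k :=
    fun p x hx e => p x hx ((hc _ _).trans e)
  have hall : U ⊆ D := by
    intro w hw
    by_contra dw
    rcases hw with (hw | hw) | (hw | hw)
    · exact hno (h.out hc D hD m1 hxa hxb hya hyb dxa dxb dya dyb fxb (sw' fyb) hw dw)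
    · exact hno (h.swap1.out hc D (by rw [Set.union_comm Ab, Set.union_comm Bb]; exact hD) m2
        hxb hxa hyb hya dxb dxa dyb dya fxa (sw' fya) hw dw)
    · exact hno (h.swap2.out hc D hD' (sw m1) hya hyb hxa hxb dya dyb dxa dxb fyb (sw' fxb) hw dw)
    · exact hno (h.swap2.swap1.out hc D (by rw [Set.union_comm Ab, Set.union_comm Bb]; exact hD')
        (sw m2) hyb hya hxb hxa dyb dya dxb dxa fya (sw' fxa) hw dw)
  obtain ⟨T, Na, Nb, Ma, Mb, e1, -, -, -, -, e6, e7, e8, e9, e⟩ :=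
    h.box ∅ ∅ ∅ ∅ (h.p0 a) (h.p0 b) (h.q0 a) (h.q0 b) (Set.empty_disjoint _) (Set.empty_disjoint _)
  refine hno ⟨_, _, _, _, _, _, _, _, e1, conn_comp hc o U xa, conn_comp_diff hc o U xa xb,
    conn_empty o, fun v => ?_⟩
  have h1 := e v
  have h2 : v ∈ U → v ∈ D := fun hv => hall hv
  have h3 : v ∈ comp G c o U xa → v ∈ U := fun hv => comp_sub (U := U) (Or.inl (Or.inl hxa)) hv
  have h4 : v ∈ comp G c o U xb → v ∈ U := fun hv => comp_sub (U := U) (Or.inl (Or.inr hxb)) hv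
  simp only [Ex4, U, D, Set.mem_union, e6 rfl, e7 rfl, e8 rfl, e9 rfl, Set.mem_empty_iff_false,
    Set.mem_sdiff] at h1 h2 h3 h4 ⊢
  grind (splits := 60)

end Pool.Agent.MP_4e8562_co.H78
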