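import Mathlib
import Pool.Agent.MP_4e8562_co.H78.Conn

/-!
One side constructions for the three colour argument.
-/

namespace Pool.Agent.MP_4e8562_co.H78

open Finset Relation

variable {V : Type} [Fintype V] [DecidableEq V] {G : SimpleGraph V} {c : V → V → Fin 3} {d : ℕ}

omit [Fintype V] [DecidableEq V] in
theorem hub_set (c : V → V → Fin 3) (X Y : Finset V) (hX : X.Nonempty) :
    ∃ (J : Finset (Fin 3)) (x : Fin 3 → V) (N : Finset V), (∀ j, x j ∈ X) ∧ N ⊆ Y ∧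
      (∀ j ∈ J, ∀ y ∈ N, c (x j) y = j) ∧ ∀ a ∈ X, #Y ≤ 27 * #{y ∈ N | c a y ∈ J} := by
  have : Nonempty X := hX.to_subtype
  obtain ⟨J, x, N, h1, h2⟩ := exists_hub (r := 3) (by norm_num) fun (a : X) (b : Y) => c a b
  refine ⟨J, fun j => x j, N.map (Function.Embedding.subtype _), fun j => (x j).2, ?_, ?_, ?_⟩
  · intro y hy
    obtain ⟨z, -, rfl⟩ := mem_map.mp hy
    exact z.2
  · intro j hj y hy
    obtain ⟨z, hz, rfl⟩ := mem_map.mp hy
    exact h1 j hj z hz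
  · intro a ha
    have := h2 ⟨a, ha⟩
    rw [Fintype.card_coe] at this
    rw [filter_map, card_map]
    exact this

omit [DecidableEq V] in
theorem hit_set (c : V → V → Fin 3) (S : Set V) (D : V → Finset V) (hD : ∀ a ∈ S, d ≤ #(D a))
    (hV : Fintype.card V * 2 ^ d < 3 ^ d) :
    ∃ (ψ : V → Fin 3) (p : V → V), ∀ a ∈ S, p a ∈ D a ∧ ψ (p a) = c a (p a) := by
  classical
  obtain ⟨ψ, h⟩ := exists_hit (r := 3) (d := d) (by norm_num) (fun (a : S) (b : V) => c a b)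
    (fun a => D a) (fun a => hD a a.2)
    ((Nat.mul_le_mul_right _ (Fintype.card_subtype_le _)).trans_lt hV)
  have : ∀ a, ∃ y, a ∈ S → y ∈ D a ∧ ψ y = c a y := by
    intro a
    by_cases ha : a ∈ S
    · obtain ⟨y, hy⟩ := h ⟨a, ha⟩
      exact ⟨y, fun _ => hy⟩
    · exact ⟨a, fun e => absurd e ha⟩
  choose p hp using this
  exact ⟨ψ, p, hp⟩

theorem side_one (hc : ∀ u v, c u v = c v u) {X N M : Finset V}
    (hadj : ∀ a ∈ X, ∀ y ∈ N, G.Adj a y) (hdis : ∀ y ∈ N, y ∉ X) {J : Finset (Fin 3)}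
    {x : Fin 3 → V} (hx : ∀ j, x j ∈ X ∧ x j ∉ M) (hN : ∀ j ∈ J, ∀ y ∈ N, c (x j) y = j)
    (hd : ∀ a ∈ X, d + 3 ≤ #{y ∈ N | c a y ∈ J}) (hV : Fintype.card V * 2 ^ d < 3 ^ d)
    {y0 y1 : V} (h0 : y0 ∈ N) (h1 : y1 ∈ N) (h01 : y0 ≠ y1) (v0 v1 : Fin 3) :
    ∃ q : V → Fin 3, (∀ k, Conn G c k {z | (z ∈ X ∧ z ∉ M ∨ z ∈ N) ∧ q z = k}) ∧
      (q y0 = v0 ∨ ∀ z, (z ∈ X ∧ z ∉ M ∨ z ∈ N) → q z ≠ v0) ∧
      (q y1 = v1 ∨ ∀ z, (z ∈ X ∧ z ∉ M ∨ z ∈ N) → q z ≠ v1) := by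
  obtain ⟨y2, hy2⟩ := card_pos.mp (lt_of_lt_of_le (by omega) (hd _ (hx 0).1))
  have hj0 := (mem_filter.mp hy2).2
  set j0 := c (x 0) y2
  obtain ⟨ψ, p, hp⟩ := hit_set (d := d) c X (fun a => {y ∈ N | c a y ∈ J} \ {y0, y1})
    (fun a ha => by
      have := hd a ha
      have := le_card_sdiff {y0, y1} {y ∈ N | c a y ∈ J}
      have := card_le_two (a := y0) (b := y1)
      omega) hV
  simp only [mem_coe, mem_sdiff, mem_filter, mem_insert, mem_singleton, not_or] at hp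
  let g : V → Fin 3 := fun y => if y = y0 ∧ v0 ∈ J then v0 else if y = y1 ∧ v1 ∈ J then v1 else
    if ψ y ∈ J then ψ y else j0
  have hg : ∀ y, g y ∈ J := by
    intro y
    simp only [g]
    split_ifs with e1 e2 e3
    exacts [e1.2, e2.2, e3, hj0]
  have hgp : ∀ a ∈ X, g (p a) = c a (p a) := by
    intro a ha
    obtain ⟨⟨⟨-, e1⟩, e2, e3⟩, e4⟩ := hp a ha
    simp only [g, e2, e3, false_and, if_false, e4, e1, if_true]
  let q : V → Fin 3 := fun z => if z ∈ N then g z else c z (p z)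
  have q1 : ∀ z ∈ N, q z = g z := fun z hz => if_pos hz
  have q2 : ∀ z ∈ X, q z = c z (p z) := fun z hz => if_neg fun e => hdis z e hz
  have hq : ∀ z, (z ∈ X ∧ z ∉ M ∨ z ∈ N) → q z ∈ J := by
    rintro z (hz | hz)
    · rw [q2 z hz.1]
      exact (hp z hz.1).1.1.2
    · rw [q1 z hz]
      exact hg z
  refine ⟨q, fun k => ?_, ?_, ?_⟩
  · by_cases hk : k ∈ J
    · have s1 := ((conn_single k (x k)).attach hc {y | y ∈ N ∧ g y = k} fun y hy =>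
        ⟨x k, rfl, (hadj _ (hx k).1 y hy.1).symm, (hc _ _).trans (hN k hk y hy.1)⟩).attach hc
        {a | (a ∈ X ∧ a ∉ M) ∧ q a = k} fun a ha => by
          have e1 := (hp a ha.1.1).1.1.1
          have e2 := (q2 a ha.1.1).symm.trans ha.2
          exact ⟨p a, Or.inr ⟨e1, (hgp a ha.1.1).trans e2⟩, hadj a ha.1.1 _ e1, e2⟩
      convert s1 using 1
      ext z
      have e1 : q (x k) = k := (q2 _ (hx k).1).trans (hN k hk _ (hp _ (hx k).1).1.1.1)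
      have e2 := q1 z
      have e3 := hx k
      clear_value q g
      simp only [Set.mem_union, Set.mem_ofPred_eq, Set.mem_singleton_iff]
      grind
    · intro z hz
      exact absurd (hz.2 ▸ hq z hz.1) hk
  · by_cases hv : v0 ∈ J
    · left
      simp only [q1 y0 h0, g, hv, and_self, if_true]
    · exact Or.inr fun z hz e => hv (e ▸ hq z hz)
  · by_cases hv : v1 ∈ J
    · left
      simp only [q1 y1 h1, g, hv, h01.symm, false_and, if_false, and_self, if_true]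
    · exact Or.inr fun z hz e => hv (e ▸ hq z hz)

variable (c d) in
/-- a set that has a hub with many common neighbours of colour `j` -/
def Vir (N : Finset V) (A : Set V) (j : Fin 3) (Z : Set V) : Prop :=
  Z ⊆ A ∧ ∃ E ⊆ N, (∀ x ∈ Z, d ≤ #{y ∈ E | c x y = j}) ∧
    (Z = ∅ ∧ E = ∅ ∨ ∃ h ∈ Z, ∀ y ∈ E, c h y = j)

omit [Fintype V] [DecidableEq V] in
theorem vir_empty (N : Finset V) (A : Set V) (j : Fin 3) : Vir c d N A j ∅ :=
  ⟨Set.empty_subset _, ∅, empty_subset _, fun _ h => h.elim, Or.inl ⟨rfl, rfl⟩⟩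

omit [Fintype V] in
theorem count3 {o a b : Fin 3} (tri : ∀ k, k = o ∨ k = a ∨ k = b) (E : Finset V) (x : V) :
    #E ≤ #{y ∈ E | c x y = o} + #{y ∈ E | c x y = a} + #{y ∈ E | c x y = b} := by
  refine le_trans (card_le_card ?_) ((card_union_le _ _).trans
    (Nat.add_le_add_right (card_union_le _ _) _))
  intro y hy
  have := tri (c x y)
  simp only [mem_union, mem_filter]
  tauto

omit [Fintype V] in
theorem split_aux {o a b : Fin 3} (tri : ∀ k, k = o ∨ k = a ∨ k = b) {N : Finset V} {A Z : Set V}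
    (hA : ∀ x ∈ A, #{y ∈ N | c x y = o} < d) (hZ : Z ⊆ A) {h : V} (hh : h ∈ Z)
    (hN : 5 * d ≤ #{y ∈ N | c h y = a}) : ∃ Z1 ⊆ Z, Vir c d N A a Z1 ∧ Vir c d N A b (Z \ Z1) := by
  set N1 := {y ∈ N | c h y = a}
  have s1 : N1 ⊆ N := filter_subset _ _
  have hA' : ∀ E ⊆ N, ∀ x ∈ A, #{y ∈ E | c x y = o} < d := fun E hE x hx =>
    (card_le_card (filter_subset_filter _ hE)).trans_lt (hA x hx)
  refine ⟨{x | x ∈ Z ∧ d ≤ #{y ∈ N1 | c x y = a}}, fun x hx => hx.1,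
    ⟨fun x hx => hZ hx.1, N1, s1, fun x hx => hx.2, Or.inr ⟨h, ⟨hh, ?_⟩, fun y hy =>
      (mem_filter.mp hy).2⟩⟩, ?_⟩
  · rw [filter_true_of_mem fun y hy => (mem_filter.mp hy).2]
    exact le_trans (by omega) hN
  · set W := Z \ {x | x ∈ Z ∧ d ≤ #{y ∈ N1 | c x y = a}}
    rcases W.eq_empty_or_nonempty with e | ⟨h', hh'⟩
    · rw [e]
      exact vir_empty _ _ _
    have hW : ∀ x ∈ W, #{y ∈ N1 | c x y = a} < d := fun x hx =>
      not_le.mp fun e => hx.2 ⟨hx.1, e⟩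
    refine ⟨fun x hx => hZ hx.1, {y ∈ N1 | c h' y = b}, (filter_subset _ _).trans s1, ?_,
      Or.inr ⟨h', hh', fun y hy => (mem_filter.mp hy).2⟩⟩
    intro x hx
    have e1 := count3 (c := c) tri N1 h'
    have e2 := count3 (c := c) tri {y ∈ N1 | c h' y = b} x
    have e3 := hA' N1 s1 h' (hZ hh'.1)
    have e4 := hA' _ ((filter_subset (fun y => c h' y = b) _).trans s1) x (hZ hx.1)
    have e5 := hW h' hh'
    have e6 := (card_le_card (filter_subset_filter (fun y => c x y = a)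
      (filter_subset (fun y => c h' y = b) N1))).trans_lt (hW x hx)
    omega

omit [Fintype V] in
theorem split_vir {o a b : Fin 3} (tri : ∀ k, k = o ∨ k = a ∨ k = b) {N : Finset V} {A : Set V}
    (hA : ∀ x ∈ A, #{y ∈ N | c x y = o} < d) (hN : 11 * d ≤ #N) (Z : Set V) (hZ : Z ⊆ A) :
    ∃ Z1 ⊆ Z, Vir c d N A a Z1 ∧ Vir c d N A b (Z \ Z1) := by
  rcases Z.eq_empty_or_nonempty with rfl | ⟨h, hh⟩
  · exact ⟨∅, le_rfl, vir_empty _ _ _, by rw [Set.empty_sdiff]; exact vir_empty _ _ _⟩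
  have e1 := count3 (c := c) tri N h
  have e2 := hA h (hZ hh)
  by_cases e3 : 5 * d ≤ #{y ∈ N | c h y = a}
  · exact split_aux tri hA hZ hh e3
  · obtain ⟨Z1, h1, h2, h3⟩ := split_aux (a := b) (b := a) (fun k => by have := tri k; tauto) hA
      hZ hh (by omega)
    exact ⟨Z \ Z1, Set.sdiff_subset, h3, by rwa [Set.sdiff_sdiff_cancel_left h1]⟩

omit [Fintype V] [DecidableEq V] in
theorem conn_vir (hc : ∀ u v, c u v = c v u) {Z : Set V} {E : Finset V} {j : Fin 3}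
    (hadj : ∀ x ∈ Z, ∀ y ∈ E, G.Adj x y) (hh : Z = ∅ ∧ E = ∅ ∨ ∃ h ∈ Z, ∀ y ∈ E, c h y = j)
    (ψ : V → Fin 3) (hZ : ∀ x ∈ Z, ∃ y ∈ E, ψ y = j ∧ c x y = j) :
    Conn G c j (Z ∪ {y | y ∈ E ∧ ψ y = j}) ∧ (Z = ∅ → {y | y ∈ E ∧ ψ y = j} = ∅) := by
  rcases hh with ⟨rfl, rfl⟩ | ⟨h, h1, h2⟩
  · simp [conn_empty]
  refine ⟨?_, fun e => by simp [e] at h1⟩
  have s1 := ((conn_single j h).attach hc {y | y ∈ E ∧ ψ y = j} fun y hy =>
    ⟨h, rfl, (hadj h h1 y hy.1).symm, (hc _ _).trans (h2 y hy.1)⟩).attach hc Z fun x hx => by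
      obtain ⟨y, e1, e2, e3⟩ := hZ x hx
      exact ⟨y, Or.inr ⟨e1, e2⟩, hadj x hx y e1, e3⟩
  convert s1 using 1
  ext z
  simp only [Set.mem_union, Set.mem_ofPred_eq, Set.mem_singleton_iff]
  grind

omit [DecidableEq V] in
theorem side_two (hc : ∀ u v, c u v = c v u) {o a b : Fin 3} (hoa : o ≠ a) (hob : o ≠ b)
    (hab : a ≠ b) {X N : Finset V} {A : Set V} (hadj : ∀ x ∈ A, ∀ y ∈ N, G.Adj x y)
    (hR : ∀ x ∈ X, x ∉ A → d ≤ #{y ∈ N | c x y = o}) (hV : Fintype.card V * 2 ^ d < 3 ^ d)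
    {Za Zb : Set V} (ha : Vir c d N A a Za) (hb : Vir c d N A b Zb) (hd : Disjoint Za Zb) :
    ∃ Na Nb : Set V, Conn G c a (Za ∪ Na) ∧ Conn G c b (Zb ∪ Nb) ∧ (Za = ∅ → Na = ∅) ∧
      (Zb = ∅ → Nb = ∅) ∧ (∀ y, (y ∈ Na → y ∈ N ∧ y ∉ Nb) ∧ (y ∈ Nb → y ∈ N)) ∧
      ∀ x ∈ X, x ∉ A → ∃ y ∈ N, y ∉ Na ∧ y ∉ Nb ∧ c x y = o := by
  classical
  obtain ⟨a1, Ea, a2, a3, a4⟩ := ha
  obtain ⟨b1, Eb, b2, b3, b4⟩ := hb
  obtain ⟨ψ, p, hp⟩ := hit_set (d := d) c {x | x ∈ Za ∨ x ∈ Zb ∨ x ∈ X ∧ x ∉ A}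
    (fun x => if x ∈ Za then {y ∈ Ea | c x y = a} else if x ∈ Zb then {y ∈ Eb | c x y = b} else
      {y ∈ N | c x y = o}) (fun x hx => by
      split_ifs with e1 e2
      · exact a3 x e1
      · exact b3 x e2
      · exact hR x ((hx.resolve_left e1).resolve_left e2).1
          ((hx.resolve_left e1).resolve_left e2).2) hV
  obtain ⟨c1, c2⟩ := conn_vir (G := G) hc (fun x hx y hy => hadj x (a1 hx) y (a2 hy)) a4 ψ
    fun x hx => by
      obtain ⟨e1, e2⟩ := hp x (Or.inl hx)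
      rw [if_pos hx, mem_filter] at e1
      exact ⟨p x, e1.1, e2.trans e1.2, e1.2⟩
  obtain ⟨c3, c4⟩ := conn_vir (G := G) hc (fun x hx y hy => hadj x (b1 hx) y (b2 hy)) b4 ψ
    fun x hx => by
      obtain ⟨e1, e2⟩ := hp x (Or.inr (Or.inl hx))
      rw [if_neg fun e => Set.disjoint_left.mp hd e hx, if_pos hx, mem_filter] at e1
      exact ⟨p x, e1.1, e2.trans e1.2, e1.2⟩
  refine ⟨_, _, c1, c3, c2, c4, fun y => ⟨fun hy => ⟨a2 hy.1, fun e => hab (hy.2.symm.trans e.2)⟩,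
    fun hy => b2 hy.1⟩, fun x hx hx' => ?_⟩
  obtain ⟨e1, e2⟩ := hp x (Or.inr (Or.inr ⟨hx, hx'⟩))
  rw [if_neg fun e => hx' (a1 e), if_neg fun e => hx' (b1 e), mem_filter] at e1
  have e3 := e2.trans e1.2
  exact ⟨p x, e1.1, fun e => hoa (e3.symm.trans e.2), fun e => hob (e3.symm.trans e.2), e1.2⟩

end Pool.Agent.MP_4e8562_co.H78
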