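import Mathlib
import Pool.Agent.MP_4e8562_co.H78.Side
import Pool.Agent.MP_4e8562_co.H78.Lower

/-!
Four trees suffice for three colours in the balanced range, and are needed.
-/

namespace Pool.Agent.MP_4e8562_co.H78

open Finset Relation Pool.Agent.MP_4e8562_co.H97

section

variable {V : Type} [Fintype V] [DecidableEq V] {G : SimpleGraph V} {c : V → V → Fin 3} {d : ℕ}

omit [Fintype V] [DecidableEq V] in
theorem conn_merge (hc : ∀ u v, c u v = c v u) {S T : V → Prop} {q q' : V → Fin 3} {v : Fin 3}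
    (h1 : Conn G c v {z | S z ∧ q z = v}) (h2 : Conn G c v {z | T z ∧ q' z = v}) {x y : V}
    (hy : S y) (hx : T x) (e1 : G.Adj x y) (e2 : c x y = v) (f1 : q y = v ∨ ∀ z, S z → q z ≠ v)
    (f2 : q' x = v ∨ ∀ z, T z → q' z ≠ v) :
    Conn G c v ({z | S z ∧ q z = v} ∪ {z | T z ∧ q' z = v}) := by
  rcases f1 with f1 | f1
  · rcases f2 with f2 | f2
    · exact h1.join hc h2 ⟨hy, f1⟩ ⟨hx, f2⟩ e1.symm ((hc _ _).trans e2)
    · rwa [Set.eq_empty_of_forall_notMem (s := {z | T z ∧ q' z = v}) fun z hz => f2 z hz.1 hz.2,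
        Set.union_empty]
  · rwa [Set.eq_empty_of_forall_notMem (s := {z | S z ∧ q z = v}) fun z hz => f1 z hz.1 hz.2,
      Set.empty_union]

theorem case_two (hc : ∀ u v, c u v = c v u) {X Y M N : Finset V}
    (hadj : ∀ a ∈ X, ∀ y ∈ Y, G.Adj a y) (hXY : ∀ z, z ∈ X ↔ z ∉ Y) (hM : M ⊆ X) (hN : N ⊆ Y)
    (hd : 0 < d) (hMd : 11 * d ≤ #M) (hNd : 11 * d ≤ #N) (hV : Fintype.card V * 2 ^ d < 3 ^ d)
    {o : Fin 3} (ho : ∀ x ∈ M, ∀ y ∈ N, c x y = o) : Cov4 G c := by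
  obtain ⟨a, b, hoa, hob, hab, tri⟩ : ∃ a b, o ≠ a ∧ o ≠ b ∧ a ≠ b ∧
      ∀ k, k = o ∨ k = a ∨ k = b := by
    clear ho
    revert o
    decide
  let A : Set V := {x | x ∈ X ∧ #{y ∈ N | c x y = o} < d}
  let B : Set V := {x | x ∈ Y ∧ #{y ∈ M | c x y = o} < d}
  have hMA : ∀ x ∈ M, x ∉ A := fun x hx e => by
    have := e.2
    rw [filter_true_of_mem (ho x hx)] at this
    omega
  have hNB : ∀ y ∈ N, y ∉ B := fun y hy e => by
    have := e.2
    rw [filter_true_of_mem fun x hx => (hc _ _).trans (ho x hx y hy)] at this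
    omega
  have sA := split_vir tri (A := A) (fun x hx => hx.2) hNd
  have sB := split_vir tri (A := B) (fun x hx => hx.2) hMd
  obtain ⟨Aa, a1, a2, a3⟩ := sA A le_rfl
  obtain ⟨Ba, b1, b2, b3⟩ := sB B le_rfl
  have eA : Aa ∪ A \ Aa = A := Set.union_sdiff_cancel a1
  have eB : Ba ∪ B \ Ba = B := Set.union_sdiff_cancel b1
  refine Cfg.cov hc (o := o) (a := a) (b := b) (P := Vir c d N A) (Q := Vir c d M B)
    ⟨?_, tri, ?_, ?_, Set.disjoint_sdiff_right, Set.disjoint_sdiff_right, a2, a3, b2, b3,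
      vir_empty N A, vir_empty M B, ?_, ?_⟩ <;> simp only [eA, eB]
  · intro Za Zb Wa Wb h1 h2 h3 h4 h5 h6
    obtain ⟨Na, Nb, n1, n2, n3, n4, n5, n6⟩ := side_two (G := G) (X := X) (A := A) hc hoa hob hab
      (fun x hx y hy => hadj x hx.1 y (hN hy)) (fun x hx e => not_lt.mp fun f => e ⟨hx, f⟩) hV
      h1 h2 h5
    obtain ⟨Ma, Mb, m1, m2, m3, m4, m5, m6⟩ := side_two (G := G) (X := Y) (A := B) hc hoa hob hab
      (fun x hx y hy => (hadj y (hM hy) x hx.1).symm)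
      (fun x hx e => not_lt.mp fun f => e ⟨hx, f⟩) hV h3 h4 h6
    obtain ⟨x0, hx0⟩ := card_pos.mp (by omega : 0 < #M)
    obtain ⟨y0, hy0⟩ := card_pos.mp (by omega : 0 < #N)
    obtain ⟨y1, p1, p2, p3, -⟩ := n6 x0 (hM hx0) (hMA x0 hx0)
    obtain ⟨x1, q1, q2, q3, -⟩ := m6 y0 (hN hy0) (hNB y0 hy0)
    let T : Set V := {v | v ∉ A ∧ v ∉ B ∧ v ∉ Na ∧ v ∉ Nb ∧ v ∉ Ma ∧ v ∉ Mb}
    have hA : ∀ v ∈ A, v ∈ X := fun v hv => hv.1
    have hB : ∀ v ∈ B, v ∈ Y := fun v hv => hv.1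
    have s1 := (conn_complete (G := G) (i := o) hc (P := {x | x ∈ M ∧ x ∉ Ma ∧ x ∉ Mb})
      (Q := {y | y ∈ N ∧ y ∉ Na ∧ y ∉ Nb}) ⟨q1, q2, q3⟩ ⟨p1, p2, p3⟩ fun u hu v hv =>
        ⟨hadj u (hM hu.1) v (hN hv.1), ho u hu.1 v hv.1⟩).attach hc T fun v hv => by
      by_cases hv' : v ∈ X
      · obtain ⟨y, e1, e2, e3, e4⟩ := n6 v hv' hv.1
        exact ⟨y, Or.inr ⟨e1, e2, e3⟩, hadj v hv' y (hN e1), e4⟩
      · have hv'' : v ∈ Y := not_not.mp fun e => hv' ((hXY v).mpr e)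
        obtain ⟨y, e1, e2, e3, e4⟩ := m6 v hv'' hv.2.1
        exact ⟨y, Or.inl ⟨e1, e2, e3⟩, (hadj y (hM e1) v hv'').symm, e4⟩
    have key : ∀ v, (v ∈ M → v ∈ X ∧ v ∉ A) ∧ (v ∈ N → v ∈ Y ∧ v ∉ B) ∧ (v ∈ A → v ∈ X) ∧
        (v ∈ B → v ∈ Y) ∧ (v ∈ X ↔ v ∉ Y) := fun v =>
      ⟨fun e => ⟨hM e, hMA v e⟩, fun e => ⟨hN e, hNB v e⟩, hA v, hB v, hXY v⟩
    clear_value A B
    refine ⟨T, Na, Nb, Ma, Mb, ?_, n1, n2, m1, m2, n3, n4, m3, m4, fun v => ?_⟩
    · convert s1 using 1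
      ext v
      have e1 := key v
      have e2 := n5 v
      have e3 := m5 v
      simp only [T, Set.mem_union, Set.mem_ofPred_eq]
      grind (splits := 60)
    · have e1 := key v
      have e2 := n5 v
      have e3 := m5 v
      simp only [T, Ex4, Set.mem_ofPred_eq]
      grind (splits := 60)
  · exact fun u hu v hv => hadj u hu.1 v hv.1
  · exact fun v h1 h2 => (hXY v).mp h1.1 h2.1
  · exact sA
  · exact sB

theorem cov_all (hc : ∀ u v, c u v = c v u) {X Y : Finset V}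
    (hadj : ∀ a ∈ X, ∀ y ∈ Y, G.Adj a y) (hXY : ∀ z, z ∈ X ↔ z ∉ Y) (hd : 0 < d)
    (hX : 27 * (11 * d + 3) ≤ #X) (hY : 27 * (11 * d + 3) ≤ #Y)
    (hV : Fintype.card V * 2 ^ d < 3 ^ d) : Cov4 G c := by
  obtain ⟨J, x, N0, x1, x2, x3, x4⟩ := hub_set c X Y (card_pos.mp (by omega))
  obtain ⟨I, y, M0, y1, y2, y3, y4⟩ := hub_set c Y X (card_pos.mp (by omega))
  let N := N0 \ univ.image y
  let M := M0 \ univ.image x
  have cnt : ∀ (E : Finset V) (z : Fin 3 → V) (p : V → Prop) [DecidablePred p],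
      #{v ∈ E | p v} ≤ #{v ∈ E \ univ.image z | p v} + 3 := by
    intro E z p _
    have h1 := le_card_sdiff (univ.image z) {v ∈ E | p v}
    have h2 : #(univ.image z) ≤ 3 := card_image_le.trans (by simp)
    have h3 : {v ∈ E | p v} \ univ.image z = {v ∈ E \ univ.image z | p v} := by
      ext v
      simp only [mem_sdiff, mem_filter]
      tauto
    rw [h3] at h1
    omega
  have dN : ∀ a ∈ X, 11 * d ≤ #{v ∈ N | c a v ∈ J} := fun a ha => by
    have h1 := x4 a ha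
    have h2 := cnt N0 y fun v => c a v ∈ J
    simp only [N]
    omega
  have dM : ∀ a ∈ Y, 11 * d ≤ #{v ∈ M | c a v ∈ I} := fun a ha => by
    have h1 := y4 a ha
    have h2 := cnt M0 x fun v => c a v ∈ I
    simp only [M]
    omega
  have hN : N ⊆ Y := sdiff_subset.trans x2
  have hM : M ⊆ X := sdiff_subset.trans y2
  have cN : 11 * d ≤ #N := (dN _ (x1 0)).trans (card_filter_le _ _)
  have cM : 11 * d ≤ #M := (dM _ (y1 0)).trans (card_filter_le _ _)
  by_cases h : ∃ u0 ∈ M, ∃ u1 ∈ M, ∃ w0 ∈ N, ∃ w1 ∈ N, u0 ≠ u1 ∧ w0 ≠ w1 ∧ c u0 w0 ≠ c u1 w1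
  · obtain ⟨u0, hu0, u1, hu1, w0, hw0, w1, hw1, hu, hw, hne⟩ := h
    obtain ⟨q, q1, q2, q3⟩ := side_one (G := G) (d := d) (M := M) hc
      (fun a ha v hv => hadj a ha v (hN hv)) (fun v hv e => (hXY v).mp e (hN hv))
      (fun j => ⟨x1 j, fun e => (mem_sdiff.mp e).2 (mem_image_of_mem x (mem_univ j))⟩)
      (fun j hj v hv => x3 j hj v (mem_sdiff.mp hv).1)
      (fun a ha => le_trans (by omega) (dN a ha)) hV hw0 hw1 hw (c u0 w0) (c u1 w1)
    obtain ⟨q', p1, p2, p3⟩ := side_one (G := G) (d := d) (M := N) hc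
      (fun a ha v hv => (hadj v (hM hv) a ha).symm) (fun v hv => (hXY v).mp (hM hv))
      (fun j => ⟨y1 j, fun e => (mem_sdiff.mp e).2 (mem_image_of_mem y (mem_univ j))⟩)
      (fun j hj v hv => y3 j hj v (mem_sdiff.mp hv).1)
      (fun a ha => le_trans (by omega) (dM a ha)) hV hu0 hu1 hu (c u0 w0) (c u1 w1)
    have s0 := conn_merge hc (q1 _) (p1 _) (Or.inr hw0) (Or.inr hu0)
      (hadj _ (hM hu0) _ (hN hw0)) rfl q2 p2
    have s1 := conn_merge hc (q1 _) (p1 _) (Or.inr hw1) (Or.inr hu1)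
      (hadj _ (hM hu1) _ (hN hw1)) rfl q3 p3
    obtain ⟨t, t0, t1, tri⟩ : ∃ t, c u0 w0 ≠ t ∧ c u1 w1 ≠ t ∧
        ∀ k, k = c u0 w0 ∨ k = c u1 w1 ∨ k = t := by
      revert hne
      generalize c u0 w0 = i
      generalize c u1 w1 = j
      revert i j
      decide
    refine ⟨_, _, _, _, _, _, _, _, s0, s1, q1 t, p1 t, fun v => ?_⟩
    have e1 : v ∈ N → v ∈ Y := fun e => hN e
    have e2 : v ∈ M → v ∈ X := fun e => hM e
    have e3 := hXY v
    have e4 := tri (q v)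
    have e5 := tri (q' v)
    clear_value M N
    simp only [Ex4, Set.mem_union, Set.mem_ofPred_eq]
    grind (splits := 60)
  · push Not at h
    obtain ⟨u0, hu0⟩ := card_pos.mp (by omega : 0 < #M)
    obtain ⟨w0, hw0⟩ := card_pos.mp (by omega : 0 < #N)
    refine case_two hc hadj hXY hM hN hd cM cN hV (o := c u0 w0) fun u hu w hw => ?_
    have third : ∀ (E : Finset V) (a b : V), 11 * d ≤ #E → ∃ z ∈ E, z ≠ a ∧ z ≠ b := by
      intro E a b hE
      have h1 := card_le_two (a := a) (b := b)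
      obtain ⟨z, h2, h3⟩ := exists_mem_notMem_of_card_lt_card (by omega : #({a, b} : Finset V) < #E)
      exact ⟨z, h2, by simpa using h3⟩
    obtain ⟨u2, e1, e2, e3⟩ := third M u u0 cM
    obtain ⟨w2, f1, f2, f3⟩ := third N w w0 cN
    exact (h u2 e1 u hu w2 f1 w hw e2 f2).symm.trans (h u2 e1 u0 hu0 w2 f1 w0 hw0 e3 f3)

end

theorem part_of_cov {V : Type} {r : ℕ} (G : SimpleGraph V) (χ : G.edgeSet → Fin r)
    (c : V → V → Fin r) (hc : ∀ u v (h : G.Adj u v), c u v = χ ⟨s(u, v), h⟩) (h : Cov4 G c) :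
    Part G χ 4 := by
  classical
  obtain ⟨S0, S1, S2, S3, i0, i1, i2, i3, h0, h1, h2, h3, h4⟩ := h
  let S : Fin 4 → Set V := ![S0, S1, S2, S3]
  let col : Fin 4 → Fin r := ![i0, i1, i2, i3]
  have hS : ∀ l, Conn G c (col l) (S l) := by
    intro l
    fin_cases l
    exacts [h0, h1, h2, h3]
  have hl : ∀ v, ∃ l, ∀ k, v ∈ S k ↔ k = l := by
    intro v
    have := h4 v
    simp only [Ex4] at this
    simp only [Fin.exists_fin_succ, Fin.forall_fin_succ, S]
    simp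
    grind (splits := 60)
  choose lab hlab using hl
  rcases isEmpty_or_nonempty V with hV | hV
  · exact ⟨∅, by simp, by simp, fun v => hV.elim v⟩
  have hr : ∀ l, ∃ z, ∀ v, lab v = l → lab z = l := by
    intro l
    by_cases e : ∃ v, lab v = l
    · obtain ⟨v, hv⟩ := e
      exact ⟨v, fun _ _ => hv⟩
    · exact ⟨Classical.arbitrary V, fun v hv => absurd ⟨v, hv⟩ e⟩
  choose rt hrt using hr
  have := part_of_reach G χ lab col rt univ (fun _ => mem_univ _) fun v => by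
    have e1 := hS (lab v) v ((hlab v _).mpr rfl) (rt (lab v)) ((hlab _ _).mpr (hrt _ v rfl).symm)
    generalize rt (lab v) = z at e1
    induction e1 with
    | refl => exact .refl
    | tail _ e ih =>
      have f1 := (hlab _ _).mp e.1
      have f2 := (hlab _ _).mp e.2.1
      exact ih.tail ⟨f1.symm.trans f2, e.2.2.1, by rw [← hc _ _ e.2.2.1, e.2.2.2, f1]⟩
  simpa using this

theorem upper_three {n m d : ℕ} (hd : 0 < d) (hn : 27 * (11 * d + 3) ≤ n) (hnm : n ≤ m)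
    (hm : 2 * m * 2 ^ d < 3 ^ d) (χ : (K n m).edgeSet → Fin 3) : Part (K n m) χ 4 := by
  classical
  let c : Fin n ⊕ Fin m → Fin n ⊕ Fin m → Fin 3 := fun u v =>
    if h : (K n m).Adj u v then χ ⟨s(u, v), h⟩ else 0
  have hc : ∀ u v, c u v = c v u := by
    intro u v
    by_cases h : (K n m).Adj u v
    · simp only [c, dif_pos h, dif_pos h.symm]
      exact congrArg χ (Subtype.ext Sym2.eq_swap)
    · simp only [c, dif_neg h, dif_neg fun e : (K n m).Adj v u => h e.symm]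
  refine part_of_cov _ χ c (fun u v h => dif_pos h) (cov_all (d := d) hc
    (X := univ.map Function.Embedding.inl) (Y := univ.map Function.Embedding.inr) ?_ ?_ hd
    (by simpa using hn) (by simpa using hn.trans hnm) ?_)
  · intro a ha y hy
    obtain ⟨a, -, rfl⟩ := mem_map.mp ha
    obtain ⟨y, -, rfl⟩ := mem_map.mp hy
    exact K_adj a y
  · rintro (z | z) <;> simp
  · refine lt_of_le_of_lt (Nat.mul_le_mul_right _ ?_) hm
    simp only [Fintype.card_sum, Fintype.card_fin]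
    omega

theorem lower_three {n m : ℕ} (hn : 2 ≤ n) (hm : 36 ≤ m) :
    ∃ χ : (K n m).edgeSet → Fin 3, ∀ k, Part (K n m) χ k → 4 ≤ k := by
  classical
  let π : Fin n → Bool := fun a => decide (a.val = 0)
  have hne : Nonempty {y : Bool → Fin 3 // y false ≠ y true} :=
    ⟨⟨fun s => if s then 1 else 0, by decide⟩⟩
  obtain ⟨ι⟩ : Nonempty ({y : Bool → Fin 3 // y false ≠ y true} × Fin 4 ↪ Fin m) := by
    refine Function.Embedding.nonempty_of_card_le ?_
    rw [Fintype.card_prod, Fintype.card_fin, Fintype.card_fin]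
    refine le_trans (Nat.mul_le_mul_right _ ((Fintype.card_subtype_le _).trans (le_of_eq ?_)))
      (show 9 * 4 ≤ m from hm)
    simp
  let τ : Fin m → {y : Bool → Fin 3 // y false ≠ y true} := fun b => (Function.invFun ι b).1
  have hτ : ∀ z, τ (ι z) = z.1 := fun z => by
    simp only [τ, Function.leftInverse_invFun ι.injective z]
  obtain ⟨χ, hχ⟩ := exists_colouring (fun b a => (τ b).1 (π a) : Fin m → Fin n → Fin 3)
  refine ⟨χ, fun k hk => ?_⟩
  obtain ⟨φ, hφ⟩ := lower_lab (by norm_num) χ hk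
  have hcount := hφ (fun a => (π a, φ a)) (by
    intro a a' b e1 e2 e3
    rw [hχ] at e1 e2
    have e4 : (τ b).1 (π a) = (τ b).1 (π a') := e1.trans e2.symm
    have e5 := (τ b).2
    rw [e3]
    congr 1
    revert e4
    cases π a <;> cases π a' <;> simp [e5, e5.symm])
  rw [hχ] at hcount
  by_contra hlt
  have fin : ∀ T : Finset (Bool × Fin 3), #T ≤ 3 → (∃ i, (false, i) ∈ T) → (∃ i, (true, i) ∈ T) →
      ∃ u v, u ≠ v ∧ (false, u) ∉ T ∧ (true, v) ∉ T := by decide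
  obtain ⟨u, v, huv, hu, hv⟩ := fin (univ.image fun a => (π a, φ a)) (by omega)
    ⟨_, mem_image_of_mem _ (mem_univ (⟨1, hn⟩ : Fin n))⟩
    ⟨_, mem_image_of_mem _ (mem_univ (⟨0, by omega⟩ : Fin n))⟩
  have h4 := card_le_card_of_injOn (s := (univ : Finset (Fin 4)))
    (t := {b | ∀ a, (τ b).1 (π a) ≠ φ a})
    (fun j => ι (⟨fun s => if s then v else u, by simpa using huv⟩, j)) (by
      intro j _
      refine mem_filter.mpr ⟨mem_univ _, fun a e => ?_⟩
      rw [hτ] at e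
      have e1 := mem_image_of_mem (fun a => (π a, φ a)) (mem_univ a)
      rw [← e] at e1
      revert e1
      cases π a
      exacts [hu, hv]) fun j _ j' _ e => by simpa using e
  rw [card_univ, Fintype.card_fin] at h4
  have h5 : 4 ≤ av (fun b a => (τ b).1 (π a)) φ := h4
  omega

end Pool.Agent.MP_4e8562_co.H78
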