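import Mathlib
import Pool.Agent.MP_4e8562_co.H78.Lower

/-!
Numerical form of the two bounds.
-/

namespace Pool.Agent.MP_4e8562_co.H78

open Finset Pool.Agent.MP_4e8562_co.H97

theorem upper_num {n m r : ℕ} (hr : 2 ≤ r) (hnm : n ≤ m) (hm0 : 0 < m)
    (hm : (m : ℝ) ≤ Real.exp (n / r ^ (r + 1) - 2)) :
    2 * r ^ (r + 1) ≤ n ∧ ∀ χ : (K n m).edgeSet → Fin r, Part (K n m) χ (2 * r - 1) := by
  have hrR : (2 : ℝ) ≤ r := by exact_mod_cast hr
  have hR : 0 < r ^ r := by positivity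
  have hRR : (0 : ℝ) < (r : ℝ) ^ r := by positivity
  have h1 : 2 * r ^ (r + 1) ≤ n := by
    have h2 : (1 : ℝ) ≤ m := by exact_mod_cast hm0
    have h3 := Real.one_le_exp_iff.mp (h2.trans hm)
    rw [sub_nonneg, le_div_iff₀ (by positivity)] at h3
    exact_mod_cast h3
  refine ⟨h1, fun χ => ?_⟩
  obtain ⟨q, hq⟩ : ∃ q, q = (n - 1) / r ^ r := ⟨_, rfl⟩
  have h2 : r ^ r * q ≤ n - 1 := hq ▸ Nat.mul_div_le _ _
  have h3 : n - 1 < r ^ r * (q + 1) := hq ▸ Nat.lt_mul_div_succ _ hR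
  have h4 : r ≤ q := by
    rw [hq, Nat.le_div_iff_mul_le hR]
    rw [pow_succ] at h1
    have : 0 < r ^ r * r := by positivity
    rw [mul_comm]
    omega
  obtain ⟨d, rfl⟩ : ∃ d, q = d + r := ⟨q - r, by omega⟩
  have hn0 : 0 < r ^ (r + 1) := by positivity
  refine upper_part (d := d) (by omega) (by omega) hnm ?_ χ
  have h5 : (n : ℝ) ≤ r ^ r * (d + r + 1) := by
    have : n ≤ r ^ r * (d + r + 1) := by omega
    exact_mod_cast this
  have h6 : (n : ℝ) / r ^ (r + 1) - 2 < d * (1 / r) := by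
    rw [sub_lt_iff_lt_add, div_lt_iff₀ (by positivity), pow_succ]
    have : (d * (1 / r) + 2 : ℝ) * (r ^ r * r) = r ^ r * (d + 2 * r) := by field_simp
    rw [this]
    exact h5.trans_lt (mul_lt_mul_of_pos_left (by linarith) hRR)
  have h7 : (1 - 1 / r : ℝ) ^ d ≤ Real.exp (-(1 / r)) ^ d := by
    refine pow_le_pow_left₀ ?_ ?_ d
    · rw [sub_nonneg, div_le_one (by positivity)]
      linarith
    · have := Real.add_one_le_exp (-(1 / r : ℝ))
      linarith
  have h8 : (m : ℝ) * (1 - 1 / r) ^ d < 1 := by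
    have h9 : (m : ℝ) < Real.exp (d * (1 / r)) := hm.trans_lt (Real.exp_lt_exp.mpr h6)
    have h10 : Real.exp (d * (1 / r)) * Real.exp (-(1 / r)) ^ d = 1 := by
      rw [← Real.exp_nat_mul, ← Real.exp_add]
      simp
    calc (m : ℝ) * (1 - 1 / r) ^ d ≤ m * Real.exp (-(1 / r)) ^ d :=
          mul_le_mul_of_nonneg_left h7 (by positivity)
      _ < Real.exp (d * (1 / r)) * Real.exp (-(1 / r)) ^ d :=
          mul_lt_mul_of_pos_right h9 (by positivity)
      _ = 1 := h10
  have h11 : (1 - 1 / r : ℝ) = (r - 1) / r := by field_simp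
  rw [h11, div_pow, ← mul_div_assoc, div_lt_one (by positivity)] at h8
  have h12 : ((r - 1 : ℕ) : ℝ) = r - 1 := by
    rw [Nat.cast_sub (by omega)]
    simp
  rw [← h12] at h8
  exact_mod_cast h8

theorem lower_num {n m r : ℕ} (hr : 14 ≤ r) (hn : 4 * r ≤ n) (hm : r ^ (4 * r) ≤ m) :
    ∃ χ : (K n m).edgeSet → Fin r, ∀ k, Part (K n m) χ k → 2 * r - 1 ≤ k := by
  have h1 : #{c : Fin r | decide (c.val < r / 2) = true} = r / 2 := by
    have : ({c : Fin r | decide (c.val < r / 2) = true} : Finset (Fin r)) =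
        Iio ⟨r / 2, by omega⟩ := by
      ext c
      simp [Fin.lt_def]
    rw [this, Fin.card_Iio]
  have h2 : #{c : Fin r | decide (c.val < r / 2) = false} = r - r / 2 := by
    have : ({c : Fin r | decide (c.val < r / 2) = false} : Finset (Fin r)) =
        Ici ⟨r / 2, by omega⟩ := by
      ext c
      simp [Fin.le_def]
    rw [this, Fin.card_Ici]
  refine lower_colouring (h := r - 13) (by omega) (fun c => decide (c.val < r / 2)) ?_ ?_
    (by omega) (le_trans ?_ hm)
  · rintro (_ | _) <;> omega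
  · rintro (_ | _) <;> omega
  · have h3 : 4 * r = r - 13 + 3 * r + 1 + (2 + 10) := by omega
    rw [h3, pow_add _ _ (2 + 10), pow_add _ 2 10]
    refine Nat.mul_le_mul_left _ ?_
    have h4 : 0 < r ^ 10 := by positivity
    have h5 : 2 * r ≤ r ^ 2 := by nlinarith
    exact le_trans (by omega) (Nat.le_mul_of_pos_right _ h4)

end Pool.Agent.MP_4e8562_co.H78
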